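import Pool.Agent.E8helper74.ZG.Rat

/-!
# Cyclic fields and characters
-/

set_option autoImplicit false

open NumberField

namespace Pool.Agent.E8helper74.ZG

noncomputable section

theorem exists_pow_of_gen {E : Type} [Field E] [NumberField E] [IsGalois ℚ E]
    (g : E ≃ₐ[ℚ] E) (hg : ∀ x, x ∈ Subgroup.zpowers g) (σ τ : E →+* ℂ) :
    ∃ i ∈ Finset.range (orderOf g), σ.comp ((g ^ i : E ≃ₐ[ℚ] E) : E →+* E) = τ := by
  obtain ⟨k, hk⟩ := ComplexEmbedding.exists_comp_symm_eq_of_comp_eq (k := ℚ) σ τ (RingHom.ext_rat _ _)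
  obtain ⟨i, hi⟩ := (isOfFinOrder_of_finite g).mem_powers_iff_mem_zpowers.mpr (hg k.symm)
  refine ⟨i % orderOf g, Finset.mem_range.mpr (Nat.mod_lt _ (orderOf_pos g)), ?_⟩
  have h1 : g ^ (i % orderOf g) = k.symm := by
    rw [pow_mod_orderOf]
    exact hi
  rw [h1, ← hk]

theorem sum_cyc {E : Type} [Field E] [NumberField E] [IsGalois ℚ E]
    (g : E ≃ₐ[ℚ] E) (hg : ∀ x, x ∈ Subgroup.zpowers g) (σ0 : E →+* ℂ) (f : (E →+* ℂ) → ℂ) :
    ∑ σ : E →+* ℂ, f σ =
      ∑ i ∈ Finset.range (orderOf g), f (σ0.comp ((g ^ i : E ≃ₐ[ℚ] E) : E →+* E)) := by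
  symm
  refine Finset.sum_bij (fun i _ => σ0.comp ((g ^ i : E ≃ₐ[ℚ] E) : E →+* E))
    (fun i _ => Finset.mem_univ _) ?_ ?_ ?_
  · intro i hi j hj hij
    have h1 : g ^ i = g ^ j := by
      ext x
      exact σ0.injective (RingHom.congr_fun hij x)
    exact pow_injOn_Iio_orderOf (Finset.mem_range.mp hi) (Finset.mem_range.mp hj) h1
  · intro τ _
    obtain ⟨i, hi, hi'⟩ := exists_pow_of_gen g hg σ0 τ
    exact ⟨i, hi, hi'⟩
  · intro i _
    rfl

theorem enough_of_char {n : ℕ} {E : Type} [Field E] [NumberField E] (h : CharCond n E) :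
    Enough n E := by
  obtain ⟨hgal, g, hg, σ0, hch⟩ := h
  intro W hW hW0 hWg
  let T : Submodule ℂ ((E →+* ℂ) → ℂ) :=
    { carrier := {f | (fun σ => (f σ).re) ∈ W ∧ (fun σ => (f σ).im) ∈ W}
      add_mem' := by
        rintro a b ⟨ha, ha'⟩ ⟨hb, hb'⟩
        exact ⟨add_mem ha hb, add_mem ha' hb'⟩
      zero_mem' := ⟨zero_mem W, zero_mem W⟩
      smul_mem' := by
        rintro c a ⟨ha, ha'⟩
        refine ⟨?_, ?_⟩
        · have h1 : (fun σ => ((c • a) σ).re) = c.re • (fun σ => (a σ).re) - c.im • (fun σ => (a σ).im) := by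
            funext σ
            simp
          rw [h1]
          exact sub_mem (Submodule.smul_mem _ _ ha) (Submodule.smul_mem _ _ ha')
        · have h1 : (fun σ => ((c • a) σ).im) = c.re • (fun σ => (a σ).im) + c.im • (fun σ => (a σ).re) := by
            funext σ
            simp
          rw [h1]
          exact add_mem (Submodule.smul_mem _ _ ha') (Submodule.smul_mem _ _ ha) }
  let A : T →ₗ[ℂ] T :=
    (LinearMap.funLeft ℂ ℂ (fun σ : E →+* ℂ => σ.comp (g : E →+* E))).restrict (p := T) (q := T) (by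
      rintro f ⟨hf, hf'⟩
      exact ⟨hWg g _ hf, hWg g _ hf'⟩)
  obtain ⟨w, hw, hw0⟩ := Submodule.exists_mem_ne_zero_of_ne_bot hW0
  have hnt : Nontrivial T := by
    have hwT : (fun σ => (w σ : ℂ)) ∈ T := by
      refine ⟨?_, ?_⟩
      · simpa using hw
      · have h1 : (fun σ : E →+* ℂ => ((w σ : ℂ)).im) = 0 := by
          funext σ
          simp
        change (fun σ : E →+* ℂ => ((w σ : ℂ)).im) ∈ W
        rw [h1]
        exact zero_mem W
    refine ⟨⟨⟨_, hwT⟩, 0, fun h1 => hw0 ?_⟩⟩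
    funext σ
    have h2 : ((w σ : ℝ) : ℂ) = 0 := congrFun (congrArg Subtype.val h1) σ
    exact Complex.ofReal_eq_zero.mp h2
  obtain ⟨z, hz⟩ := Module.End.exists_eigenvalue A
  obtain ⟨f, hf1, hf2⟩ := hz.exists_hasEigenvector
  have hf3 : A f = z • f := Module.End.mem_eigenspace_iff.mp hf1
  have hfg : ∀ σ : E →+* ℂ, f.1 (σ.comp (g : E →+* E)) = z * f.1 σ := by
    intro σ
    exact congrFun (congrArg Subtype.val hf3) σ
  have hfi : ∀ (i : ℕ) (σ : E →+* ℂ), f.1 (σ.comp ((g ^ i : E ≃ₐ[ℚ] E) : E →+* E)) = z ^ i * f.1 σ := by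
    intro i
    induction i with
    | zero =>
      intro σ
      rw [pow_zero, pow_zero, one_mul]
      rfl
    | succ i ih =>
      intro σ
      have h3 : σ.comp ((g ^ (i + 1) : E ≃ₐ[ℚ] E) : E →+* E) =
          (σ.comp ((g ^ i : E ≃ₐ[ℚ] E) : E →+* E)).comp (g : E →+* E) := by
        rw [pow_succ]
        rfl
      rw [h3, hfg, ih]
      ring
  obtain ⟨σ1, hσ1⟩ : ∃ σ, f.1 σ ≠ 0 := by
    by_contra hne
    push Not at hne
    exact hf2 (Subtype.ext (funext hne))
  have hprim : IsPrimitiveRoot z (orderOf g) := by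
    refine ⟨?_, ?_⟩
    · have h1 := hfi (orderOf g) σ1
      rw [pow_orderOf_eq_one] at h1
      have h2 : (z ^ orderOf g - 1) * f.1 σ1 = 0 := by
        rw [sub_mul, one_mul, ← h1]
        exact sub_self _
      rcases mul_eq_zero.mp h2 with h3 | h3
      · exact sub_eq_zero.mp h3
      · exact absurd h3 hσ1
    · intro l hl
      by_contra hml
      have hgl : g ^ l ≠ 1 := fun h1 => hml (orderOf_dvd_of_pow_eq_one h1)
      have h1 : ∀ σ, f.1 (σ.comp ((g ^ l : E ≃ₐ[ℚ] E) : E →+* E)) = f.1 σ := by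
        intro σ
        rw [hfi, hl, one_mul]
      have h2 : (fun σ => (f.1 σ).re) = (0 : (E →+* ℂ) → ℝ) :=
        new_fix (hW f.2.1) (g ^ l) hgl (funext fun σ => congrArg Complex.re (h1 σ))
      have h3 : (fun σ => (f.1 σ).im) = (0 : (E →+* ℂ) → ℝ) :=
        new_fix (hW f.2.2) (g ^ l) hgl (funext fun σ => congrArg Complex.im (h1 σ))
      exact hσ1 (Complex.ext (congrFun h2 σ1) (congrFun h3 σ1))
  obtain ⟨y, hy, hyz⟩ := hch z hprim
  have hσ0 : f.1 σ0 ≠ 0 := by
    intro h1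
    obtain ⟨i, _, hi⟩ := exists_pow_of_gen g hg σ0 σ1
    apply hσ1
    rw [← hi, hfi, h1, mul_zero]
  have hsum : ∑ σ : E →+* ℂ, f.1 σ * (reg n y σ : ℂ) = f.1 σ0 * ∑ i ∈ Finset.range (orderOf g),
      z ^ i * (reg n y (σ0.comp ((g ^ i : E ≃ₐ[ℚ] E) : E →+* E)) : ℂ) := by
    rw [Finset.mul_sum, sum_cyc g hg σ0]
    refine Finset.sum_congr rfl fun i _ => ?_
    rw [hfi]
    ring
  have hne : ∑ σ : E →+* ℂ, f.1 σ * (reg n y σ : ℂ) ≠ 0 := by
    rw [hsum]
    exact mul_ne_zero hσ0 hyz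
  by_cases hre : ∑ σ : E →+* ℂ, (f.1 σ).re * reg n y σ = 0
  · refine ⟨_, f.2.2, y, hy, fun him => hne ?_⟩
    apply Complex.ext
    · rw [Complex.re_sum]
      simpa using hre
    · rw [Complex.im_sum]
      simpa using him
  · exact ⟨_, f.2.1, y, hy, hre⟩

theorem char_of_nonvan {n : ℕ} {E : Type} [Field E] [NumberField E] [IsGalois ℚ E]
    (hc : IsCyclic (E ≃ₐ[ℚ] E)) (hnew : New n E ≠ ⊥) (h : NonVanishing n E) : CharCond n E := by
  classical
  obtain ⟨g, hg⟩ := hc.exists_generator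
  obtain ⟨σ0⟩ : Nonempty (E →+* ℂ) := inferInstance
  refine ⟨inferInstance, g, hg, σ0, fun z hz => ?_⟩
  choose ix hix1 hix2 using exists_pow_of_gen g hg σ0
  let f : (E →+* ℂ) → ℂ := fun σ => z ^ ix σ
  have hz0 : z ≠ 0 := hz.ne_zero (orderOf_pos g).ne'
  have hfi : ∀ (i : ℕ) (σ : E →+* ℂ), f (σ.comp ((g ^ i : E ≃ₐ[ℚ] E) : E →+* E)) = z ^ i * f σ := by
    intro i σ
    change z ^ ix _ = z ^ i * z ^ ix σ
    rw [← pow_add]
    have h1 := hix2 (σ.comp ((g ^ i : E ≃ₐ[ℚ] E) : E →+* E))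
    have h2 : g ^ ix (σ.comp ((g ^ i : E ≃ₐ[ℚ] E) : E →+* E)) = g ^ (i + ix σ) := by
      ext x
      apply σ0.injective
      have h3 := RingHom.congr_fun h1 x
      have h4 := RingHom.congr_fun (hix2 σ) ((g ^ i : E ≃ₐ[ℚ] E) x)
      rw [add_comm, pow_add]
      exact h3.trans h4.symm
    rw [pow_eq_pow_iff_modEq] at h2
    exact pow_eq_pow_of_modEq h2 hz.pow_eq_one
  have hfk : ∀ (k : E ≃ₐ[ℚ] E), ∃ c : ℂ, (k ≠ 1 → c ≠ 1) ∧ (k * k = 1 → c * c = 1) ∧
      ∀ σ : E →+* ℂ, f (σ.comp (k : E →+* E)) = c * f σ := by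
    intro k
    obtain ⟨i, hi⟩ := (isOfFinOrder_of_finite g).mem_powers_iff_mem_zpowers.mpr (hg k)
    have hi' : g ^ i = k := hi
    refine ⟨z ^ i, ?_, ?_, fun σ => ?_⟩
    · intro hk h1
      apply hk
      rw [← hi']
      exact orderOf_dvd_iff_pow_eq_one.mp (hz.dvd_of_pow_eq_one i h1)
    · intro hk
      rw [← hi', ← pow_add] at hk
      rw [← pow_add]
      exact (hz.pow_eq_one_iff_dvd _).mpr (orderOf_dvd_iff_pow_eq_one.mpr hk)
    · rw [← hi', hfi]
  have hsym : ∀ σ, f (ComplexEmbedding.conjugate σ) = (sgn n : ℂ) * f σ := by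
    intro σ
    obtain ⟨h1, h2⟩ := galois_case hnew
    rcases Nat.even_or_odd n with hn | hn
    · have hcm := h2 hn
      let c : E ≃ₐ[ℚ] E := (IsCMField.complexConj E).restrictScalars ℚ
      have h3 : σ.comp (c : E →+* E) = ComplexEmbedding.conjugate σ :=
        Eq.symm (IsCMField.isConj_complexConj E σ)
      have h4 : c ≠ 1 := by
        intro h4
        apply IsCMField.complexConj_ne_one E
        ext x
        exact DFunLike.congr_fun h4 x
      have h5 : c * c = 1 := by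
        ext x
        exact IsCMField.complexConj_apply_apply E x
      obtain ⟨w, hw1, hw2, hw3⟩ := hfk c
      have h6 : w = -1 := by
        have h7 : (w - 1) * (w + 1) = 0 := by
          linear_combination hw2 h5
        rcases mul_eq_zero.mp h7 with h8 | h8
        · exact absurd (sub_eq_zero.mp h8) (hw1 h4)
        · exact eq_neg_of_add_eq_zero_left h8
      have h7 : sgn n = -1 := if_neg (Nat.not_odd_iff_even.mpr hn)
      rw [← h3, hw3, h6, h7]
      push_cast
      ring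
    · have htr := h1 hn
      have h3 : ComplexEmbedding.conjugate σ = σ :=
        ComplexEmbedding.isReal_iff.mp (IsTotallyReal.complexEmbedding_isReal σ)
      have h7 : sgn n = 1 := if_pos hn
      rw [h3, h7]
      push_cast
      ring
  have hre : (fun σ => (f σ).re) ∈ Sym n E := by
    intro σ
    change (f (ComplexEmbedding.conjugate σ)).re = sgn n * (f σ).re
    rw [hsym, Complex.re_ofReal_mul]
  by_contra hne
  unfold charSum at hne
  push Not at hne
  have h1 : ∀ k ∈ regSpan n E, ∑ σ, f σ * (k σ : ℂ) = 0 := by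
    intro k hk
    induction hk using Submodule.span_induction with
    | mem k hk =>
      obtain ⟨y, hy, rfl⟩ := hk
      rw [sum_cyc g hg σ0]
      have h2 : ∀ i ∈ Finset.range (orderOf g),
          f (σ0.comp ((g ^ i : E ≃ₐ[ℚ] E) : E →+* E)) *
            (reg n y (σ0.comp ((g ^ i : E ≃ₐ[ℚ] E) : E →+* E)) : ℂ) =
          f σ0 * (z ^ i * (reg n y (σ0.comp ((g ^ i : E ≃ₐ[ℚ] E) : E →+* E)) : ℂ)) := by
        intro i _
        rw [hfi]
        ring
      rw [Finset.sum_congr rfl h2, ← Finset.mul_sum, hne y hy, mul_zero]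
    | zero => simp
    | add a b _ _ ha hb =>
      simp only [Pi.add_apply, Complex.ofReal_add, mul_add, Finset.sum_add_distrib]
      rw [ha, hb, add_zero]
    | smul c a _ ha =>
      have h3 : ∀ σ, f σ * (((c • a) σ : ℝ) : ℂ) = c * (f σ * (a σ : ℂ)) := by
        intro σ
        rw [Pi.smul_apply, smul_eq_mul]
        push_cast
        ring
      simp only [h3]
      rw [← Finset.mul_sum, ha, mul_zero]
  have h2 := h1 _ ((nonvan_iff n E).mp h hre)
  have h3 : ∑ σ, (f σ).re * (f σ).re = 0 := by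
    have h4 := congrArg Complex.re h2
    rw [Complex.re_sum, Complex.zero_re] at h4
    simpa using h4
  rw [Finset.sum_eq_zero_iff_of_nonneg (fun σ _ => mul_self_nonneg _)] at h3
  have h4 : f σ0 = 1 := by
    have h5 := hix2 σ0
    have h6 : g ^ ix σ0 = 1 := by
      ext x
      apply σ0.injective
      exact RingHom.congr_fun h5 x
    change z ^ ix σ0 = 1
    exact (hz.pow_eq_one_iff_dvd _).mpr (orderOf_dvd_iff_pow_eq_one.mpr h6)
  have h5 := h3 σ0 (Finset.mem_univ σ0)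
  rw [h4] at h5
  norm_num at h5

end

end Pool.Agent.E8helper74.ZG
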