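import Mathlib

/-!
# The groups `ℛ_n(F)`, the maps `δ_n` and the single valued polylogarithms
-/

set_option autoImplicit false

open scoped TensorProduct Polynomial

namespace Pool.Agent.E8helper74.ZG

noncomputable section

/-- the free abelian group on the points of `ℙ^1(F)`; the point `∞` is `none` -/
abbrev Cyc (F : Type) : Type := Option F →₀ ℤ

/-- the generator `{x}` -/
def pt {F : Type} (x : Option F) : Cyc F := Finsupp.single x 1

/-- the multiplicative group of `F`, written additively -/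
def Mult (F : Type) [Field F] : Type := Additive Fˣ

instance instMult (F : Type) [Field F] : AddCommGroup (Mult F) :=
  inferInstanceAs (AddCommGroup (Additive Fˣ))

/-- the class of `x` in the multiplicative group, written additively -/
def un {F : Type} [Field F] (x : F) (hx : x ≠ 0) : Mult F := Additive.ofMul (Units.mk0 x hx)

/-- the tensor square of the multiplicative group -/
def Sq (F : Type) [Field F] : Type := Mult F ⊗[ℤ] Mult F

instance instSq (F : Type) [Field F] : AddCommGroup (Sq F) :=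
  inferInstanceAs (AddCommGroup (Mult F ⊗[ℤ] Mult F))

/-- the element `a ⊗ b` -/
def sq {F : Type} [Field F] (a b : Mult F) : Sq F := a ⊗ₜ[ℤ] b

/-- the subgroup generated by the elements `a ⊗ a` -/
def Dia (F : Type) [Field F] : AddSubgroup (Sq F) := AddSubgroup.closure {z | ∃ a : Mult F, z = sq a a}

/-- the second exterior power `Λ²` of the multiplicative group -/
abbrev Wdg (F : Type) [Field F] : Type := Sq F ⧸ Dia F

open Classical in
/-- `(1 - x) ∧ x`, and `0` for `x = 0, 1, ∞` -/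
def wedge {F : Type} [Field F] (x : Option F) : Wdg F :=
  match x with
  | none => 0
  | some x => if h : x ≠ 0 ∧ 1 - x ≠ 0 then QuotientAddGroup.mk (sq (un (1 - x) h.2) (un x h.1)) else 0

/-- the group `(ℤ[ℙ^1(F)] / R) ⊗ F^*` -/
def Tns {F : Type} [Field F] (R : AddSubgroup (Cyc F)) : Type := (Cyc F ⧸ R) ⊗[ℤ] Mult F

instance instTns {F : Type} [Field F] (R : AddSubgroup (Cyc F)) : AddCommGroup (Tns R) :=
  inferInstanceAs (AddCommGroup ((Cyc F ⧸ R) ⊗[ℤ] Mult F))

/-- the element `a ⊗ b` -/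
def tns {F : Type} [Field F] (R : AddSubgroup (Cyc F)) (a : Cyc F) (b : Mult F) : Tns R :=
  (QuotientAddGroup.mk a : Cyc F ⧸ R) ⊗ₜ[ℤ] b

open Classical in
/-- `{x} ⊗ x` modulo `R`, and `0` for `x = 0, 1, ∞` -/
def tens {F : Type} [Field F] (R : AddSubgroup (Cyc F)) (x : Option F) : Tns R :=
  match x with
  | none => 0
  | some x => if h : x ≠ 0 ∧ 1 - x ≠ 0 then tns R (pt (some x)) (un x h.1) else 0

/-- the map `δ_2` -/
def deltaTwo (F : Type) [Field F] : Cyc F →+ Wdg F :=
  Finsupp.liftAddHom fun x => (zmultiplesHom _) (wedge x)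

/-- the map `δ_n`, `n ≥ 3`, if `R` is `ℛ_(n-1)(F)` -/
def deltaNext {F : Type} [Field F] (R : AddSubgroup (Cyc F)) : Cyc F →+ Tns R :=
  Finsupp.liftAddHom fun x => (zmultiplesHom _) (tens R x)

open Classical in
/-- the value of a rational function at `a`, a point of `ℙ^1(F)` -/
def ev {F : Type} [Field F] (a : F) (f : RatFunc F) : Option F :=
  if f.denom.eval a = 0 then none else some (f.num.eval a / f.denom.eval a)

/-- the value of a point of `ℙ^1(F(t))` at `t = a` -/
def sp {F : Type} [Field F] (a : F) (f : Option (RatFunc F)) : Option F := f.bind (ev a)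

/-- the specialization of formal sums at `t = a` -/
def spec {F : Type} [Field F] (a : F) : Cyc (RatFunc F) →+ Cyc F := Finsupp.mapDomain.addMonoidHom (sp a)

/-- `ker δ_n ⊆ ℤ[ℙ^1(F)]` for `n ≥ 2`; `R` is `ℛ_(n-1)(F)`, which is used for `n ≥ 3` only -/
def kerOf {F : Type} [Field F] (n : ℕ) (R : AddSubgroup (Cyc F)) : AddSubgroup (Cyc F) :=
  if n = 2 then (deltaTwo F).ker else (deltaNext R).ker

/-- The group `ℛ_n(F)`, `n ≥ 2`, is generated by `{0}`, `{∞}` and the elements `α(0) - α(1)`, where `α` is an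
element of `ker δ_n` for the field `F(t)`. The group `ℛ_1(F)` is generated by `{x} + {y} - {xy}`, `{0}`, `{∞}`. -/
def Rel : ℕ → ∀ (F : Type) [Field F], AddSubgroup (Cyc F)
  | 0, _, _ => ⊤
  | 1, F, _ => AddSubgroup.closure ({z | ∃ x y : F, x ≠ 0 ∧ y ≠ 0 ∧
      z = pt (some x) + pt (some y) - pt (some (x * y))} ∪ {pt (some 0), pt none})
  | (n + 2), F, _ => AddSubgroup.closure ({z | ∃ α ∈ kerOf (n + 2) (Rel (n + 1) (RatFunc F)),
      z = spec 0 α - spec 1 α} ∪ {pt (some 0), pt none})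

/-- `ker δ_n ⊆ ℤ[ℙ^1(F)]` for `n ≥ 2` -/
def kerDelta (n : ℕ) (F : Type) [Field F] : AddSubgroup (Cyc F) := kerOf n (Rel (n - 1) F)

/-- the polylogarithm `Li_m(z) = ∑_{k ≥ 1} z ^ k / k ^ m`, `|z| ≤ 1` -/
def Li (m : ℕ) (z : ℂ) : ℂ := ∑' k : ℕ, z ^ (k + 1) / ((k + 1 : ℕ) : ℂ) ^ m

/-- real part for odd `n`, imaginary part for even `n` -/
def part (n : ℕ) (w : ℂ) : ℝ := if Odd n then w.re else w.im

/-- `ℒ_n(z)` for `|z| ≤ 1`: the real or imaginary part of `∑_{k < n} β_k log^k |z| Li_{n-k}(z)`, where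
`2 x / (e^{2x} - 1) = ∑ β_k x^k`, that is, `β_k = 2^k B_k / k!` with the Bernoulli numbers `B_k`. -/
def polyIn (n : ℕ) (z : ℂ) : ℝ :=
  part n (∑ k ∈ Finset.range n, ((2 ^ k * bernoulli k / k.factorial : ℚ) : ℂ) *
    ((Real.log ‖z‖ : ℝ) : ℂ) ^ k * Li (n - k) z)

open Classical in
/-- the single valued polylogarithm `ℒ_n`; for `|z| > 1` it is given by `ℒ_n(z) = (-1)^(n-1) ℒ_n(1/z)` -/
def poly (n : ℕ) (z : ℂ) : ℝ :=
  if ‖z‖ ≤ 1 then polyIn n z else (-1) ^ (n - 1) * polyIn n z⁻¹

/-- `ℒ_n` on `ℙ^1(ℂ)`; `ℒ_n(∞) = 0` -/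
def polyP (n : ℕ) : Option ℂ → ℝ
  | none => 0
  | some z => poly n z

/-- the linear extension of `ℒ_n`, applied to the image of `y ∈ ℤ[ℙ^1(F)]` under the embedding `σ` -/
def reg {F : Type} [Field F] (n : ℕ) (y : Cyc F) (σ : F →+* ℂ) : ℝ :=
  y.sum fun x c => (c : ℝ) * polyP n (x.map σ)

/-- the places which give the embeddings `σ_1, ..., σ_{d_n}`: all infinite places for odd `n`, the complex
places for even `n` -/
abbrev Pl (n : ℕ) (F : Type) [Field F] : Type :=
  {v : NumberField.InfinitePlace F // Odd n ∨ v.IsComplex}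

/-- the number `d_n` -/
def dNum (n : ℕ) (F : Type) [Field F] [NumberField F] : ℕ :=
  if Odd n then NumberField.InfinitePlace.nrRealPlaces F + NumberField.InfinitePlace.nrComplexPlaces F
  else NumberField.InfinitePlace.nrComplexPlaces F

open Classical in
/-- the regulator determinant of the elements `y_v` -/
def regDet {F : Type} [Field F] [NumberField F] (n : ℕ) (y : Pl n F → kerDelta n F) : ℝ :=
  Matrix.det fun v w : Pl n F => reg n (y v : Cyc F) w.1.embedding

/-- Zagier's conjecture for `F` and `n`: for some `y` in `ker δ_n` the number `ζ_F(n)` is a nonzero rational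
multiple of `π ^ (n d_(n-1)) |d_F| ^ (-1/2) det (ℒ_n(σ_j(y_i)))`. -/
def Zagier (n : ℕ) (F : Type) [Field F] [NumberField F] : Prop :=
  ∃ (y : Pl n F → kerDelta n F) (q : ℚ), q ≠ 0 ∧ NumberField.dedekindZeta F n =
    (((q : ℝ) * (Real.pi ^ (n * dNum (n - 1) F) * (Real.sqrt |(NumberField.discr F : ℝ)|)⁻¹ *
      regDet n y) : ℝ) : ℂ)

/-- Some regulator determinant is not zero. -/
def NonVanishing (n : ℕ) (F : Type) [Field F] [NumberField F] : Prop :=
  ∃ y : Pl n F → kerDelta n F, regDet n y ≠ 0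

/-- The theorem of Borel, Beilinson, Deligne and de Jeu for `F` and `n`: all regulator determinants of elements of
`ker δ_n` are rational multiples of `π ^ (- n d_(n-1)) |d_F| ^ (1/2) ζ_F(n)`. -/
def Rationality (n : ℕ) (F : Type) [Field F] [NumberField F] : Prop :=
  ∀ y : Pl n F → kerDelta n F, ∃ q : ℚ,
    (((Real.pi ^ (n * dNum (n - 1) F) * (Real.sqrt |(NumberField.discr F : ℝ)|)⁻¹ * regDet n y : ℝ)) : ℂ) =
      (q : ℂ) * NumberField.dedekindZeta F n

end

end Pool.Agent.E8helper74.ZG
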