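import Pool.Agent.E8helper74.ZG.Terms

/-!
# Groups with a fixed point free representation
-/

set_option autoImplicit false

namespace Pool.Agent.E8helper74.ZG

theorem HasFPF.subgroup {G : Type} [Group G] (h : HasFPF G) (H : Subgroup G) : HasFPF H := by
  obtain ⟨V, _, _, ρ, h1, h2, h3⟩ := h
  refine ⟨V, inferInstance, inferInstance, ρ.comp H.subtype, h1, h2, ?_⟩
  intro g hg v hv
  exact h3 g (fun h4 => hg (Subtype.ext h4)) v hv

theorem HasFPF.eq_of_invol {G : Type} [Group G] (h : HasFPF G) (a b : G) (ha : a ≠ 1) (hb : b ≠ 1)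
    (ha2 : a * a = 1) (hb2 : b * b = 1) : a = b := by
  obtain ⟨V, _, _, ρ, h1, h2, h3⟩ := h
  have key : ∀ c : G, c ≠ 1 → c * c = 1 → ∀ v : V, ρ c v = -v := by
    intro c hc hc2 v
    have h4 : ρ c (v + ρ c v) = v + ρ c v := by
      rw [map_add, ← Module.End.mul_apply, ← map_mul, hc2, map_one]
      exact add_comm _ _
    exact (neg_eq_of_add_eq_zero_right (h3 c hc _ h4)).symm
  by_contra hab
  obtain ⟨v, hv⟩ := exists_ne (0 : V)
  apply hv
  refine h3 (a * b) ?_ v ?_
  · intro h5
    apply hab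
    have h6 : a * b = b * b := by rw [h5, hb2]
    exact mul_right_cancel h6
  · rw [map_mul, Module.End.mul_apply, key b hb hb2, map_neg, key a ha ha2, neg_neg]

theorem order_prime {p q d : ℕ} (hp : p.Prime) (hq : q.Prime) (h : d ∣ p * q) (h1 : d ≠ 1)
    (h2 : d ≠ p * q) : d.Prime := by
  obtain ⟨a, b, ha, hb, rfl⟩ := (Nat.dvd_mul).mp h
  rcases (Nat.dvd_prime hp).mp ha with rfl | rfl
  · rcases (Nat.dvd_prime hq).mp hb with rfl | rfl
    · exact absurd rfl h1
    · rw [one_mul]
      exact hq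
  · rcases (Nat.dvd_prime hq).mp hb with rfl | rfl
    · rw [mul_one]
      exact hp
    · exact absurd rfl h2

open Classical in
theorem HasFPF.cyclic_of_card {G : Type} [Group G] (h : HasFPF G) {p q : ℕ} (hp : p.Prime)
    (hq : q.Prime) (hc : Nat.card G = p * q) : IsCyclic G := by
  have hfin : Finite G := Nat.finite_of_card_ne_zero (by
    rw [hc]
    exact (Nat.mul_pos hp.pos hq.pos).ne')
  have : Fintype G := Fintype.ofFinite G
  by_contra hcy
  obtain ⟨V, _, _, ρ, h1, h2, h3⟩ := h
  have hord : ∀ g : G, g ≠ 1 → (orderOf g).Prime := by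
    intro g hg
    refine order_prime hp hq (hc ▸ orderOf_dvd_natCard g) ?_ ?_
    · rwa [Ne, orderOf_eq_one_iff]
    · intro h4
      exact hcy (isCyclic_of_orderOf_eq_card g (h4.trans hc.symm))
  have hz : ∀ g x : G, g ≠ 1 → x ≠ 1 → x ∈ Subgroup.zpowers g →
      Subgroup.zpowers x = Subgroup.zpowers g := by
    intro g x hg hx hxg
    have h4 : Subgroup.zpowers x ≤ Subgroup.zpowers g := by
      rwa [Subgroup.zpowers_le]
    refine Subgroup.eq_of_le_of_card_ge h4 ?_
    rw [Nat.card_zpowers, Nat.card_zpowers]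
    have h5 : orderOf x ∣ orderOf g := by
      have h6 := Subgroup.card_dvd_of_le h4
      rwa [Nat.card_zpowers, Nat.card_zpowers] at h6
    rcases (Nat.dvd_prime (hord g hg)).mp h5 with h6 | h6
    · exact absurd h6 (hord x hx).one_lt.ne'
    · exact h6.ge
  have hsum : ∀ (D : Subgroup G) (g : G), g ∈ D → g ≠ 1 → ∀ v : V,
      ∑ x ∈ Finset.univ.filter (fun x : G => x ∈ D), ρ x v = 0 := by
    intro D g hgD hg v
    refine h3 g hg _ ?_
    rw [map_sum]
    refine Finset.sum_equiv (Equiv.mulLeft g) ?_ ?_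
    · intro x
      rw [Finset.mem_filter, Finset.mem_filter]
      refine and_congr (by simp) ?_
      exact (Subgroup.mul_mem_cancel_left D hgD).symm
    · intro x _
      rw [Equiv.coe_mulLeft, map_mul, Module.End.mul_apply]
  obtain ⟨v, hv⟩ := exists_ne (0 : V)
  have hone : (1 : ℕ) < Nat.card G := by
    rw [hc]
    calc 1 < p := hp.one_lt
      _ ≤ p * q := Nat.le_mul_of_pos_right p hq.pos
  obtain ⟨g0, hg0⟩ : ∃ g : G, g ≠ 1 := by
    have : Nontrivial G := (Finite.one_lt_card_iff_nontrivial).mp hone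
    exact exists_ne 1
  set S : Finset G := Finset.univ.filter (fun g => g ≠ 1) with hS
  set Z : Finset (Subgroup G) := S.image Subgroup.zpowers with hZ
  have e1 : ∀ D : Subgroup G, ∑ x ∈ Finset.univ.filter (fun x : G => x ∈ D), ρ x v =
      v + ∑ x ∈ Finset.univ.filter (fun x : G => x ∈ D ∧ x ≠ 1), ρ x v := by
    intro D
    have h4 : Finset.univ.filter (fun x : G => x ∈ D) =
        insert 1 (Finset.univ.filter (fun x : G => x ∈ D ∧ x ≠ 1)) := by
      ext x
      simp only [Finset.mem_filter, Finset.mem_univ, true_and, Finset.mem_insert]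
      constructor
      · intro h5
        by_cases h6 : x = 1
        · exact Or.inl h6
        · exact Or.inr ⟨h5, h6⟩
      · rintro (rfl | h5)
        · exact one_mem D
        · exact h5.1
    rw [h4, Finset.sum_insert (by simp), map_one]
    rfl
  have e2 : ∑ g ∈ S, ρ g v = -v := by
    have h4 := hsum ⊤ g0 (Subgroup.mem_top g0) hg0 v
    rw [e1 ⊤] at h4
    have h5 : Finset.univ.filter (fun x : G => x ∈ (⊤ : Subgroup G) ∧ x ≠ 1) = S := by
      ext x
      simp [hS]
    rw [h5] at h4
    exact (neg_eq_of_add_eq_zero_right h4).symm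
  have e3 : ∑ g ∈ S, ρ g v = -((Z.card : ℝ) • v) := by
    have h4 : ∀ g ∈ S, Subgroup.zpowers g ∈ Z := fun g hg => Finset.mem_image_of_mem _ hg
    rw [← Finset.sum_fiberwise_of_maps_to h4]
    have h5 : ∀ D ∈ Z, ∑ g ∈ S with Subgroup.zpowers g = D, ρ g v = -v := by
      intro D hD
      obtain ⟨g, hg, rfl⟩ := Finset.mem_image.mp hD
      have hg1 : g ≠ 1 := (Finset.mem_filter.mp hg).2
      have h6 := hsum (Subgroup.zpowers g) g (Subgroup.mem_zpowers g) hg1 v
      rw [e1] at h6
      have h7 : Finset.univ.filter (fun x : G => x ∈ Subgroup.zpowers g ∧ x ≠ 1) =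
          S.filter (fun x => Subgroup.zpowers x = Subgroup.zpowers g) := by
        ext x
        simp only [Finset.mem_filter, Finset.mem_univ, true_and, hS]
        constructor
        · rintro ⟨h8, h9⟩
          exact ⟨h9, hz g x hg1 h9 h8⟩
        · rintro ⟨h8, h9⟩
          exact ⟨h9 ▸ Subgroup.mem_zpowers x, h8⟩
      rw [h7] at h6
      exact (neg_eq_of_add_eq_zero_right h6).symm
    rw [Finset.sum_congr rfl h5, Finset.sum_const, smul_neg]
    congr 1
    exact (Nat.cast_smul_eq_nsmul ℝ _ _).symm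
  have e4 : ((Z.card : ℝ) - 1) • v = 0 := by
    rw [sub_smul, one_smul, sub_eq_zero]
    exact neg_injective (e3.symm.trans e2)
  rcases smul_eq_zero.mp e4 with e5 | e5
  · have e6 : Z.card = 1 := by
      have : (Z.card : ℝ) = 1 := by linarith
      exact_mod_cast this
    have key : ∀ x : G, x ∈ Subgroup.zpowers g0 := by
      intro x
      by_cases hx : x = 1
      · rw [hx]
        exact one_mem _
      obtain ⟨D, hD⟩ := Finset.card_eq_one.mp e6
      have h4 : Subgroup.zpowers x ∈ Z := Finset.mem_image_of_mem _ (Finset.mem_filter.mpr ⟨Finset.mem_univ _, hx⟩)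
      have h5 : Subgroup.zpowers g0 ∈ Z := Finset.mem_image_of_mem _ (Finset.mem_filter.mpr ⟨Finset.mem_univ _, hg0⟩)
      rw [hD, Finset.mem_singleton] at h4 h5
      rw [h5, ← h4]
      exact Subgroup.mem_zpowers x
    exact hcy ⟨g0, key⟩
  · exact hv e5

theorem HasFPF.cyclic_of_comm {G : Type} [Group G] [Finite G] (h : HasFPF G)
    (hc : ∀ a b : G, a * b = b * a) : IsCyclic G := by
  let _ : CommGroup G := { (inferInstance : Group G) with mul_comm := hc }
  obtain ⟨V, _, _, ρ, h1, h2, h3⟩ := h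
  let r : Representation ℝ G V := ρ
  have hn : Nontrivial r.asModule := h2
  have hN : IsNoetherianRing (MonoidAlgebra ℝ G) := by
    have : Module.Finite ℝ (MonoidAlgebra ℝ G) := inferInstance
    exact IsNoetherianRing.of_finite ℝ _
  obtain ⟨P, hP⟩ := associatedPrimes.nonempty (MonoidAlgebra ℝ G) r.asModule
  obtain ⟨hP1, x, hx⟩ := isAssociatedPrime_iff.mp hP
  have hx0 : x ≠ 0 := by
    intro h4
    apply hP1.ne_top
    rw [hx, h4, Ideal.eq_top_iff_one, Submodule.mem_colon_singleton]
    simp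
  have hdom : IsDomain (MonoidAlgebra ℝ G ⧸ P) := Ideal.Quotient.isDomain P
  let f : G →* (MonoidAlgebra ℝ G ⧸ P) :=
    ((Ideal.Quotient.mk P : MonoidAlgebra ℝ G →+* _) : MonoidAlgebra ℝ G →* _).comp
      (MonoidAlgebra.of ℝ G)
  refine isCyclic_of_subgroup_isDomain f ?_
  rw [injective_iff_map_eq_one]
  intro a ha
  by_contra ha1
  have h4 : MonoidAlgebra.of ℝ G a - 1 ∈ P := by
    rw [← Ideal.Quotient.eq, map_one]
    exact ha
  rw [hx, Submodule.mem_colon_singleton, Submodule.mem_bot, sub_smul, one_smul, sub_eq_zero] at h4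
  apply hx0
  have h5 := r.asModuleEquiv_symm_map_rho a (r.asModuleEquiv x)
  rw [LinearEquiv.symm_apply_apply, h4] at h5
  have h6 : ρ a (r.asModuleEquiv x) = r.asModuleEquiv x := by
    have h7 := congrArg r.asModuleEquiv h5
    rw [LinearEquiv.apply_symm_apply] at h7
    exact h7
  have h8 := h3 a ha1 _ h6
  exact (LinearEquiv.map_eq_zero_iff _).mp h8

end Pool.Agent.E8helper74.ZG
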