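import Pool.Agent.E8helper74.ZG.Zeta
import Pool.Agent.E8helper74.ZG.Grp

/-!
# Properties of the fields with nonzero new functions
-/

set_option autoImplicit false

open NumberField

namespace Pool.Agent.E8helper74.ZG

noncomputable section

/-- the representation of the automorphisms on the new functions -/
def newRep (n : ℕ) (F : Type) [Field F] [NumberField F] : (F ≃ₐ[ℚ] F) →* (New n F →ₗ[ℝ] New n F) where
  toFun g := (pull (g : F →+* F)).restrict fun _ hf => new_comp hf g
  map_one' := by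
    ext f : 2
    rfl
  map_mul' g h := by
    ext f : 2
    rfl

theorem hasFPF_of_new {n : ℕ} {F : Type} [Field F] [NumberField F] (h : New n F ≠ ⊥) :
    HasFPF (F ≃ₐ[ℚ] F) := by
  refine ⟨New n F, inferInstance, inferInstance, newRep n F, inferInstance,
    Submodule.nontrivial_iff_ne_bot.mpr h, ?_⟩
  intro g hg f hf
  exact Subtype.ext (new_fix f.2 g hg (congrArg Subtype.val hf))

open Classical in
theorem card_Pl (n : ℕ) (F : Type) [Field F] [NumberField F] :
    Fintype.card (Pl n F) = dNum n F := by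
  unfold dNum
  split_ifs with h
  · rw [← InfinitePlace.card_eq_nrRealPlaces_add_nrComplexPlaces]
    exact Fintype.card_congr (Equiv.subtypeUnivEquiv fun v => Or.inl h)
  · unfold InfinitePlace.nrComplexPlaces
    exact Fintype.card_congr (Equiv.subtypeEquivRight fun v => or_iff_right h)

theorem finrank_Sym (n : ℕ) (F : Type) [Field F] [NumberField F] :
    Module.finrank ℝ (Sym n F) = dNum n F := by
  classical
  rw [← card_Pl, ← Module.finrank_fintype_fun_eq_card ℝ (η := Pl n F)]
  refine LinearEquiv.finrank_eq (LinearEquiv.ofBijective ((rho n F).comp (Sym n F).subtype) ⟨?_, ?_⟩)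
  · intro f g hfg
    exact Subtype.ext (rho_inj f.2 g.2 hfg)
  · intro a
    obtain ⟨f, hf, h⟩ := rho_surj n a
    exact ⟨⟨f, hf⟩, h⟩

theorem exists_ext {E F : Type} [Field E] [NumberField E] [Field F] [NumberField F] (φ : E →+* F)
    (τ : E →+* ℂ) : ∃ σ : F →+* ℂ, σ.comp φ = τ := by
  let _ : Algebra E F := φ.toAlgebra
  have : Algebra.IsAlgebraic E F := by
    have : IsScalarTower ℚ E F := inferInstance
    exact Algebra.IsAlgebraic.tower_top (K := ℚ) E
  exact ⟨ComplexEmbedding.lift F τ, ComplexEmbedding.lift_comp_algebraMap F τ⟩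

theorem pull_inj {E F : Type} [Field E] [NumberField E] [Field F] [NumberField F] (φ : E →+* F) :
    Function.Injective (pull φ) := by
  intro f g h
  funext τ
  obtain ⟨σ, rfl⟩ := exists_ext φ τ
  exact congrFun h σ

theorem new_inf_pull {n : ℕ} {E F : Type} [Field E] [NumberField E] [Field F] [NumberField F]
    (φ : E →+* F) (hφ : ¬ Function.Surjective φ) {g : (E →+* ℂ) → ℝ} (h : pull φ g ∈ New n F) :
    g = 0 := by
  classical
  funext τ
  have h1 := h.2 E φ hφ τ
  have h2 : ∀ σ ∈ Finset.univ.filter (fun σ : F →+* ℂ => σ.comp φ = τ), pull φ g σ = g τ := by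
    intro σ hσ
    rw [pull_apply, (Finset.mem_filter.mp hσ).2]
  rw [Finset.sum_congr rfl h2, Finset.sum_const, nsmul_eq_mul] at h1
  rcases mul_eq_zero.mp h1 with h3 | h3
  · rw [Nat.cast_eq_zero, Finset.card_eq_zero] at h3
    obtain ⟨σ, hσ⟩ := exists_ext φ τ
    exact absurd h3 (Finset.ne_empty_of_mem (Finset.mem_filter.mpr ⟨Finset.mem_univ σ, hσ⟩))
  · exact h3

theorem dNum_pos {n : ℕ} {F : Type} [Field F] [NumberField F] (h : New n F ≠ ⊥) : 0 < dNum n F := by
  rw [← finrank_Sym, Module.finrank_pos_iff]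
  obtain ⟨f, hf, hf0⟩ := Submodule.exists_mem_ne_zero_of_ne_bot h
  exact ⟨⟨f, hf.1⟩, 0, fun h1 => hf0 (congrArg Subtype.val h1)⟩

theorem dNum_lt {n : ℕ} {E F : Type} [Field E] [NumberField E] [Field F] [NumberField F]
    (h : New n F ≠ ⊥) (φ : E →+* F) (hφ : ¬ Function.Surjective φ) : dNum n E < dNum n F := by
  let L : Sym n E →ₗ[ℝ] Sym n F := (pull φ).restrict fun _ hf => pull_mem φ hf
  have hL : Function.Injective L := by
    intro f g hfg
    exact Subtype.ext (pull_inj φ (congrArg Subtype.val hfg))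
  rw [← finrank_Sym, ← finrank_Sym]
  refine lt_of_le_of_ne (LinearMap.finrank_le_finrank_of_injective hL) fun h1 => ?_
  have h2 := (LinearMap.injective_iff_surjective_of_finrank_eq_finrank h1).mp hL
  obtain ⟨f, hf, hf0⟩ := Submodule.exists_mem_ne_zero_of_ne_bot h
  obtain ⟨g, hg⟩ := h2 ⟨f, hf.1⟩
  have h3 : pull φ g.1 = f := congrArg Subtype.val hg
  apply hf0
  have h4 : g.1 = 0 := new_inf_pull φ hφ (by
    rw [h3]
    exact hf)
  rw [← h3, h4, map_zero]

theorem not_cm {n : ℕ} {F : Type} [Field F] [NumberField F] (h : New n F ≠ ⊥) (hn : Odd n) :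
    ¬ IsCMField F := by
  intro hF
  obtain ⟨f, hf, hf0⟩ := Submodule.exists_mem_ne_zero_of_ne_bot h
  apply hf0
  let c : F ≃ₐ[ℚ] F := (IsCMField.complexConj F).restrictScalars ℚ
  refine new_fix hf c ?_ ?_
  · intro hc
    apply IsCMField.complexConj_ne_one F
    ext x
    exact DFunLike.congr_fun hc x
  · funext σ
    have h1 : σ.comp (c : F →+* F) = ComplexEmbedding.conjugate σ :=
      Eq.symm (IsCMField.isConj_complexConj F σ)
    rw [pull_apply, h1, hf.1 σ]
    have h2 : sgn n = 1 := if_pos hn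
    rw [h2, one_mul]

theorem galois_case {n : ℕ} {F : Type} [Field F] [NumberField F] [IsGalois ℚ F] (h : New n F ≠ ⊥) :
    (Odd n → IsTotallyReal F) ∧ (Even n → IsCMField F) := by
  have hc : ∀ σ : F →+* ℂ, ∃ c : F ≃ₐ[ℚ] F, ComplexEmbedding.IsConj σ c := by
    intro σ
    obtain ⟨c, hc⟩ := ComplexEmbedding.exists_comp_symm_eq_of_comp_eq (k := ℚ) σ
      (ComplexEmbedding.conjugate σ) (RingHom.ext_rat _ _)
    exact ⟨c.symm, hc.symm⟩
  by_cases hr : ∃ σ : F →+* ℂ, ComplexEmbedding.IsReal σ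
  · obtain ⟨σ, hσ⟩ := hr
    have hTR : IsTotallyReal F := by
      refine ⟨fun v => ?_⟩
      rw [← InfinitePlace.mk_embedding v, InfinitePlace.isReal_mk_iff]
      obtain ⟨g, hg⟩ := ComplexEmbedding.exists_comp_symm_eq_of_comp_eq (k := ℚ) σ
        v.embedding (RingHom.ext_rat _ _)
      rw [← hg]
      exact ComplexEmbedding.IsReal.comp _ hσ
    refine ⟨fun _ => hTR, fun hn => ?_⟩
    exfalso
    have h1 := dNum_pos h
    unfold dNum at h1
    rw [if_neg (Nat.not_odd_iff_even.mpr hn), IsTotallyReal.nrComplexPlaces_eq_zero] at h1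
    exact lt_irrefl _ h1
  · have hTC : IsTotallyComplex F := by
      refine ⟨fun v => ?_⟩
      rw [← InfinitePlace.mk_embedding v, InfinitePlace.isComplex_mk_iff]
      exact fun h1 => hr ⟨_, h1⟩
    have hG := hasFPF_of_new h
    have hne : ∀ (σ : F →+* ℂ) (c : F ≃ₐ[ℚ] F), ComplexEmbedding.IsConj σ c → c ≠ 1 := by
      rintro σ c h1 rfl
      exact hr ⟨σ, ComplexEmbedding.isReal_iff.mpr h1⟩
    have hsq : ∀ (σ : F →+* ℂ) (c : F ≃ₐ[ℚ] F), ComplexEmbedding.IsConj σ c → c * c = 1 := by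
      intro σ c h1
      ext x
      apply σ.injective
      have h2 : ∀ y, σ (c y) = star (σ y) := fun y => (RingHom.congr_fun h1 y).symm
      change σ (c (c x)) = σ x
      rw [h2, h2, star_star]
    obtain ⟨σ0⟩ : Nonempty (F →+* ℂ) := inferInstance
    obtain ⟨c, hc0⟩ := hc σ0
    have hall : ∀ σ : F →+* ℂ, ComplexEmbedding.IsConj σ c := by
      intro σ
      obtain ⟨c', hc'⟩ := hc σ
      have h1 : c' = c := hG.eq_of_invol c' c (hne σ c' hc') (hne σ0 c hc0) (hsq σ c' hc')
        (hsq σ0 c hc0)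
      rwa [h1] at hc'
    have hCM : IsCMField F := IsCMField.of_forall_isConj F hall
    exact ⟨fun hn => absurd hCM (not_cm h hn), fun _ => hCM⟩

end

end Pool.Agent.E8helper74.ZG
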