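import Pool.Agent.E8helper74.ZG.Def

/-!
# Functoriality for field extensions
-/

set_option autoImplicit false

open scoped TensorProduct Polynomial

namespace Pool.Agent.E8helper74.ZG

noncomputable section

/-- the map induced by a homomorphism of fields -/
def mp {F L : Type} [Field F] [Field L] (φ : F →+* L) : Cyc F →+ Cyc L :=
  Finsupp.mapDomain.addMonoidHom (Option.map φ)

theorem hom_ext' {X M : Type} [AddCommGroup M] (f g : (X →₀ ℤ) →+ M)
    (h : ∀ x, f (Finsupp.single x 1) = g (Finsupp.single x 1)) : f = g := by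
  refine Finsupp.addHom_ext fun x n => ?_
  have h1 : Finsupp.single x n = n • Finsupp.single x (1 : ℤ) := by simp
  rw [h1, map_zsmul, map_zsmul, h]

theorem mp_pt {F L : Type} [Field F] [Field L] (φ : F →+* L) (x : Option F) :
    mp φ (pt x) = pt (x.map φ) := Finsupp.mapDomain_single

theorem spec_pt {F : Type} [Field F] (a : F) (x : Option (RatFunc F)) :
    spec a (pt x) = pt (sp a x) := Finsupp.mapDomain_single

/-- the map of multiplicative groups -/
def mu {F L : Type} [Field F] [Field L] (φ : F →+* L) : Mult F →ₗ[ℤ] Mult L :=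
  AddMonoidHom.toIntLinearMap
    (MonoidHom.toAdditive (Units.map (φ : F →* L)) : Mult F →+ Mult L)

theorem mu_un {F L : Type} [Field F] [Field L] (φ : F →+* L) (x : F) (hx : x ≠ 0) :
    mu φ (un x hx) = un (φ x) ((map_ne_zero φ).mpr hx) := by
  change Additive.ofMul _ = Additive.ofMul _
  congr 1
  ext
  rfl

/-- the map of tensor squares -/
def sqMap {F L : Type} [Field F] [Field L] (φ : F →+* L) : Sq F →+ Sq L :=
  (TensorProduct.map (mu φ) (mu φ)).toAddMonoidHom

theorem sqMap_sq {F L : Type} [Field F] [Field L] (φ : F →+* L) (a b : Mult F) :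
    sqMap φ (sq a b) = sq (mu φ a) (mu φ b) := TensorProduct.map_tmul _ _ _ _

theorem dia_le {F L : Type} [Field F] [Field L] (φ : F →+* L) : Dia F ≤ (Dia L).comap (sqMap φ) := by
  unfold Dia
  rw [AddSubgroup.closure_le]
  rintro z ⟨a, rfl⟩
  exact AddSubgroup.subset_closure ⟨mu φ a, sqMap_sq φ a a⟩

/-- the map of exterior squares -/
def wdgMap {F L : Type} [Field F] [Field L] (φ : F →+* L) : Wdg F →+ Wdg L :=
  QuotientAddGroup.map (Dia F) (Dia L) (sqMap φ) (dia_le φ)

open Classical in
theorem wedge_map {F L : Type} [Field F] [Field L] (φ : F →+* L) (x : Option F) :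
    wdgMap φ (wedge x) = wedge (x.map φ) := by
  match x with
  | none => exact map_zero _
  | some x =>
    change wdgMap φ (dite _ _ _) = dite _ _ _
    by_cases h : x ≠ 0 ∧ 1 - x ≠ 0
    · have h' : φ x ≠ 0 ∧ 1 - φ x ≠ 0 := by
        refine ⟨(map_ne_zero φ).mpr h.1, ?_⟩
        rw [← map_one φ, ← map_sub]
        exact (map_ne_zero φ).mpr h.2
      rw [dif_pos h, dif_pos h']
      unfold wdgMap
      rw [QuotientAddGroup.map_mk, sqMap_sq, mu_un, mu_un]
      have h1 : un (φ (1 - x)) ((map_ne_zero φ).mpr h.2) = un (1 - φ x) h'.2 := by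
        unfold un
        congr 2
        rw [map_sub, map_one]
      rw [h1]
    · have h' : ¬ (φ x ≠ 0 ∧ 1 - φ x ≠ 0) := by
        intro h2
        apply h
        refine ⟨(map_ne_zero φ).mp h2.1, ?_⟩
        rw [← map_one φ, ← map_sub] at h2
        exact (map_ne_zero φ).mp h2.2
      rw [dif_neg h, dif_neg h', map_zero]

theorem deltaTwo_pt {F : Type} [Field F] (x : Option F) : deltaTwo F (pt x) = wedge x := by
  unfold deltaTwo pt
  rw [Finsupp.liftAddHom_apply_single, zmultiplesHom_apply, one_smul]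

theorem deltaNext_pt {F : Type} [Field F] (R : AddSubgroup (Cyc F)) (x : Option F) :
    deltaNext R (pt x) = tens R x := by
  unfold deltaNext pt
  rw [Finsupp.liftAddHom_apply_single, zmultiplesHom_apply, one_smul]

theorem deltaTwo_map {F L : Type} [Field F] [Field L] (φ : F →+* L) (α : Cyc F) :
    wdgMap φ (deltaTwo F α) = deltaTwo L (mp φ α) := by
  have h : (wdgMap φ).comp (deltaTwo F) = (deltaTwo L).comp (mp φ) := by
    refine hom_ext' _ _ fun x => ?_
    change wdgMap φ (deltaTwo F (pt x)) = deltaTwo L (mp φ (pt x))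
    rw [deltaTwo_pt, mp_pt, deltaTwo_pt, wedge_map]
  exact DFunLike.congr_fun h α

/-- the map of quotients -/
def quo {F L : Type} [Field F] [Field L] (φ : F →+* L) (R : AddSubgroup (Cyc F))
    (R' : AddSubgroup (Cyc L)) (h : R ≤ R'.comap (mp φ)) : (Cyc F ⧸ R) →ₗ[ℤ] (Cyc L ⧸ R') :=
  (QuotientAddGroup.map R R' (mp φ) h).toIntLinearMap

/-- the map of the groups `Tns` -/
def tnsMap {F L : Type} [Field F] [Field L] (φ : F →+* L) (R : AddSubgroup (Cyc F))
    (R' : AddSubgroup (Cyc L)) (h : R ≤ R'.comap (mp φ)) : Tns R →+ Tns R' :=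
  (TensorProduct.map (quo φ R R' h) (mu φ)).toAddMonoidHom

theorem tnsMap_tns {F L : Type} [Field F] [Field L] (φ : F →+* L) (R : AddSubgroup (Cyc F))
    (R' : AddSubgroup (Cyc L)) (h : R ≤ R'.comap (mp φ)) (a : Cyc F) (b : Mult F) :
    tnsMap φ R R' h (tns R a b) = tns R' (mp φ a) (mu φ b) := TensorProduct.map_tmul _ _ _ _

open Classical in
theorem tens_map {F L : Type} [Field F] [Field L] (φ : F →+* L) (R : AddSubgroup (Cyc F))
    (R' : AddSubgroup (Cyc L)) (h : R ≤ R'.comap (mp φ)) (x : Option F) :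
    tnsMap φ R R' h (tens R x) = tens R' (x.map φ) := by
  match x with
  | none => exact map_zero _
  | some x =>
    change tnsMap φ R R' h (dite _ _ _) = dite _ _ _
    by_cases h0 : x ≠ 0 ∧ 1 - x ≠ 0
    · have h' : φ x ≠ 0 ∧ 1 - φ x ≠ 0 := by
        refine ⟨(map_ne_zero φ).mpr h0.1, ?_⟩
        rw [← map_one φ, ← map_sub]
        exact (map_ne_zero φ).mpr h0.2
      rw [dif_pos h0, dif_pos h', tnsMap_tns, mu_un, mp_pt]
      rfl
    · have h' : ¬ (φ x ≠ 0 ∧ 1 - φ x ≠ 0) := by
        intro h2
        apply h0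
        refine ⟨(map_ne_zero φ).mp h2.1, ?_⟩
        rw [← map_one φ, ← map_sub] at h2
        exact (map_ne_zero φ).mp h2.2
      rw [dif_neg h0, dif_neg h', map_zero]

theorem deltaNext_map {F L : Type} [Field F] [Field L] (φ : F →+* L) (R : AddSubgroup (Cyc F))
    (R' : AddSubgroup (Cyc L)) (h : R ≤ R'.comap (mp φ)) (α : Cyc F) :
    tnsMap φ R R' h (deltaNext R α) = deltaNext R' (mp φ α) := by
  have h1 : (tnsMap φ R R' h).comp (deltaNext R) = (deltaNext R').comp (mp φ) := by
    refine hom_ext' _ _ fun x => ?_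
    change tnsMap φ R R' h (deltaNext R (pt x)) = deltaNext R' (mp φ (pt x))
    rw [deltaNext_pt, mp_pt, deltaNext_pt, tens_map]
  exact DFunLike.congr_fun h1 α

theorem kerOf_map {F L : Type} [Field F] [Field L] (φ : F →+* L) (n : ℕ) (R : AddSubgroup (Cyc F))
    (R' : AddSubgroup (Cyc L)) (h : R ≤ R'.comap (mp φ)) : kerOf n R ≤ (kerOf n R').comap (mp φ) := by
  intro α hα
  unfold kerOf at hα
  rw [AddSubgroup.mem_comap]
  unfold kerOf
  split_ifs at hα ⊢
  · rw [AddMonoidHom.mem_ker] at hα ⊢
    rw [← deltaTwo_map, hα, map_zero]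
  · rw [AddMonoidHom.mem_ker] at hα ⊢
    rw [← deltaNext_map φ R R' h, hα, map_zero]

/-- the map of the fields of rational functions -/
def rf {F L : Type} [Field F] [Field L] (φ : F →+* L) : RatFunc F →+* RatFunc L :=
  RatFunc.mapRingHom (Polynomial.mapRingHom φ) (by
    intro p hp
    rw [mem_nonZeroDivisors_iff_ne_zero] at hp
    change Polynomial.mapRingHom φ p ∈ nonZeroDivisors _
    rw [mem_nonZeroDivisors_iff_ne_zero]
    intro h
    exact hp ((Polynomial.map_eq_zero φ).mp h))

theorem rf_div {F L : Type} [Field F] [Field L] (φ : F →+* L) (p q : F[X]) :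
    rf φ (algebraMap _ _ p / algebraMap _ _ q) =
      algebraMap _ _ (p.map φ) / algebraMap _ _ (q.map φ) := by
  unfold rf
  rw [RatFunc.coe_mapRingHom_eq_coe_map, RatFunc.map_apply_div]
  rfl

theorem ev_rf {F L : Type} [Field F] [Field L] (φ : F →+* L) (a : F) (f : RatFunc F) :
    ev (φ a) (rf φ f) = (ev a f).map φ := by
  have hc := f.isCoprime_num_denom
  have hd := f.denom_ne_zero
  have hc' := (rf φ f).isCoprime_num_denom
  have hd' := (rf φ f).denom_ne_zero
  have hdm : f.denom.map φ ≠ 0 := by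
    intro h
    exact hd ((Polynomial.map_eq_zero φ).mp h)
  have h1 : (rf φ f).num * f.denom.map φ = f.num.map φ * (rf φ f).denom := by
    have h2 : algebraMap L[X] (RatFunc L) (rf φ f).num / algebraMap _ _ (rf φ f).denom =
        algebraMap _ _ (f.num.map φ) / algebraMap _ _ (f.denom.map φ) := by
      rw [RatFunc.num_div_denom, ← rf_div, RatFunc.num_div_denom]
    rw [div_eq_div_iff ((map_ne_zero_iff _ (RatFunc.algebraMap_injective L)).mpr hd')
      ((map_ne_zero_iff _ (RatFunc.algebraMap_injective L)).mpr hdm), ← map_mul, ← map_mul] at h2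
    exact RatFunc.algebraMap_injective L h2
  have h2 : (rf φ f).num.eval (φ a) * φ (f.denom.eval a) =
      φ (f.num.eval a) * (rf φ f).denom.eval (φ a) := by
    have h3 := congrArg (Polynomial.eval (φ a)) h1
    rw [Polynomial.eval_mul, Polynomial.eval_mul, Polynomial.eval_map_apply,
      Polynomial.eval_map_apply] at h3
    exact h3
  have hcop : ∀ {K : Type} [Field K] (g : RatFunc K) (b : K), g.denom.eval b = 0 →
      g.num.eval b ≠ 0 := by
    intro K _ g b h3 h4
    obtain ⟨u, v, huv⟩ := g.isCoprime_num_denom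
    have h5 := congrArg (Polynomial.eval b) huv
    rw [Polynomial.eval_add, Polynomial.eval_mul, Polynomial.eval_mul, h3, h4, mul_zero, mul_zero,
      add_zero, Polynomial.eval_one] at h5
    exact zero_ne_one h5
  unfold ev
  by_cases h3 : f.denom.eval a = 0
  · have h4 : (rf φ f).denom.eval (φ a) = 0 := by
      rw [h3, map_zero, mul_zero] at h2
      rcases mul_eq_zero.mp h2.symm with h5 | h5
      · exact absurd ((map_eq_zero φ).mp h5) (hcop f a h3)
      · exact h5
    rw [if_pos h3, if_pos h4]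
    rfl
  · have h4 : (rf φ f).denom.eval (φ a) ≠ 0 := by
      intro h5
      rw [h5, mul_zero] at h2
      rcases mul_eq_zero.mp h2 with h6 | h6
      · exact hcop _ _ h5 h6
      · exact h3 ((map_eq_zero φ).mp h6)
    rw [if_neg h3, if_neg h4, Option.map_some, map_div₀]
    congr 1
    rw [div_eq_div_iff h4 ((map_ne_zero φ).mpr h3)]
    exact h2

theorem sp_map {F L : Type} [Field F] [Field L] (φ : F →+* L) (a : F) (x : Option (RatFunc F)) :
    sp (φ a) (x.map (rf φ)) = (sp a x).map φ := by
  match x with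
  | none => rfl
  | some x => exact ev_rf φ a x

theorem spec_map {F L : Type} [Field F] [Field L] (φ : F →+* L) (a : F) (α : Cyc (RatFunc F)) :
    mp φ (spec a α) = spec (φ a) (mp (rf φ) α) := by
  have h1 : (mp φ).comp (spec a) = (spec (φ a)).comp (mp (rf φ)) := by
    refine hom_ext' _ _ fun x => ?_
    change mp φ (spec a (pt x)) = spec (φ a) (mp (rf φ) (pt x))
    rw [spec_pt, mp_pt, mp_pt, spec_pt, sp_map]
  exact DFunLike.congr_fun h1 α

theorem rel_map (n : ℕ) : ∀ {F L : Type} [Field F] [Field L] (φ : F →+* L),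
    Rel n F ≤ (Rel n L).comap (mp φ) := by
  induction n with
  | zero =>
    intro F L _ _ φ α _
    exact AddSubgroup.mem_top _
  | succ n ih =>
    intro F L _ _ φ
    have h0 : ∀ (S : Set (Cyc L)), pt (some 0) ∈ S → pt none ∈ S → ∀ z ∈ ({pt (some 0), pt none} : Set (Cyc F)),
        mp φ z ∈ S := by
      intro S h1 h2 z hz
      rcases hz with rfl | hz
      · rw [mp_pt, Option.map_some, map_zero]
        exact h1
      · rw [Set.mem_singleton_iff.mp hz, mp_pt]
        exact h2
    cases n with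
    | zero =>
      change AddSubgroup.closure _ ≤ _
      rw [AddSubgroup.closure_le]
      intro z hz
      change mp φ z ∈ AddSubgroup.closure _
      rcases hz with ⟨x, y, hx, hy, rfl⟩ | hz
      · refine AddSubgroup.subset_closure (Or.inl ⟨φ x, φ y, (map_ne_zero φ).mpr hx,
          (map_ne_zero φ).mpr hy, ?_⟩)
        rw [map_sub, map_add, mp_pt, mp_pt, mp_pt]
        simp
      · exact h0 _ (AddSubgroup.subset_closure (Or.inr (Or.inl rfl)))
          (AddSubgroup.subset_closure (Or.inr (Or.inr rfl))) z hz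
    | succ n =>
      change AddSubgroup.closure _ ≤ _
      rw [AddSubgroup.closure_le]
      intro z hz
      change mp φ z ∈ AddSubgroup.closure _
      rcases hz with ⟨α, hα, rfl⟩ | hz
      · refine AddSubgroup.subset_closure (Or.inl ⟨mp (rf φ) α, ?_, ?_⟩)
        · exact kerOf_map (rf φ) (n + 2) _ _ (ih (rf φ)) hα
        · rw [map_sub, spec_map, spec_map, map_zero, map_one]
      · exact h0 _ (AddSubgroup.subset_closure (Or.inr (Or.inl rfl)))
          (AddSubgroup.subset_closure (Or.inr (Or.inr rfl))) z hz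

/-- `ker δ_n` is functorial -/
theorem kerDelta_map {F L : Type} [Field F] [Field L] (φ : F →+* L) (n : ℕ) {α : Cyc F}
    (h : α ∈ kerDelta n F) : mp φ α ∈ kerDelta n L :=
  kerOf_map φ n _ _ (rel_map (n - 1) φ) h

theorem reg_map {F L : Type} [Field F] [Field L] (φ : F →+* L) (n : ℕ) (y : Cyc F) (σ : L →+* ℂ) :
    reg n (mp φ y) σ = reg n y (σ.comp φ) := by
  unfold reg mp
  rw [Finsupp.mapDomain.addMonoidHom_apply, Finsupp.sum_mapDomain_index]
  · refine Finsupp.sum_congr fun x _ => ?_
    rw [Option.map_map]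
    rfl
  · intro x
    simp
  · intro x a b
    push_cast
    ring

end

end Pool.Agent.E8helper74.ZG
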