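import Pool.Agent.E8helper74.ZG.Def

/-!
# New functions and the statements
-/

set_option autoImplicit false

open NumberField

namespace Pool.Agent.E8helper74.ZG

noncomputable section

/-- `(-1)^(n-1)` -/
def sgn (n : ℕ) : ℝ := if Odd n then 1 else -1

/-- The real functions `f` on the set of complex embeddings of `F` with `f (conj ∘ σ) = (-1)^(n-1) f σ`. -/
def Sym (n : ℕ) (F : Type) [Field F] : Submodule ℝ ((F →+* ℂ) → ℝ) where
  carrier := {f | ∀ σ, f (ComplexEmbedding.conjugate σ) = sgn n * f σ}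
  add_mem' := by
    intro f g hf hg σ
    rw [Pi.add_apply, Pi.add_apply, hf σ, hg σ]
    ring
  zero_mem' := by
    intro σ
    simp
  smul_mem' := by
    intro c f hf σ
    rw [Pi.smul_apply, Pi.smul_apply, hf σ, smul_eq_mul, smul_eq_mul]
    ring

open Classical in
/-- The new functions: the functions `f` with `f (conj ∘ σ) = (-1)^(n-1) f σ` whose sum over the extensions to `F`
of `τ` is `0` for every embedding `τ` of a smaller field. -/
def New (n : ℕ) (F : Type) [Field F] [NumberField F] : Submodule ℝ ((F →+* ℂ) → ℝ) where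
  carrier := {f | f ∈ Sym n F ∧ ∀ (E : Type) [Field E] [NumberField E] (φ : E →+* F),
    ¬ Function.Surjective φ → ∀ τ : E →+* ℂ,
      (∑ σ ∈ Finset.univ.filter fun σ : F →+* ℂ => σ.comp φ = τ, f σ) = 0}
  add_mem' := by
    rintro f g ⟨hf, hf'⟩ ⟨hg, hg'⟩
    refine ⟨add_mem hf hg, ?_⟩
    intro E _ _ φ hφ τ
    have h := hf' E φ hφ τ
    have h' := hg' E φ hφ τ
    simp only [Pi.add_apply, Finset.sum_add_distrib]
    rw [h, h', add_zero]
  zero_mem' := by
    refine ⟨zero_mem _, ?_⟩
    intro E _ _ φ hφ τ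
    simp
  smul_mem' := by
    rintro c f ⟨hf, hf'⟩
    refine ⟨Submodule.smul_mem _ c hf, ?_⟩
    intro E _ _ φ hφ τ
    have h := hf' E φ hφ τ
    simp only [Pi.smul_apply, smul_eq_mul]
    rw [← Finset.mul_sum, h, mul_zero]

/-- the powers of `g` permute the places in `Pl n F` transitively -/
def Trans (n : ℕ) (F : Type) [Field F] [NumberField F] (g : F ≃ₐ[ℚ] F) : Prop :=
  ∀ v w : Pl n F, ∃ i : ℕ, w.1 = v.1.comap ((g ^ i : F ≃ₐ[ℚ] F) : F →+* F)

/-- the orders `1, 2, 3, 4, 6` -/
def Small (m : ℕ) : Prop := m = 1 ∨ m = 2 ∨ m = 3 ∨ m = 4 ∨ m = 6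

/-- There is `y ∈ ker δ_n` with `∑ f(σ) ℒ_n(σ(y)) ≠ 0`. -/
def Detects (n : ℕ) {F : Type} [Field F] [NumberField F] (f : (F →+* ℂ) → ℝ) : Prop :=
  ∃ y ∈ kerDelta n F, ∑ σ : F →+* ℂ, f σ * reg n y σ ≠ 0

/-- There are `y ∈ ker δ_n` and a new function `f` with `∑ f(σ) ℒ_n(σ(y)) ≠ 0`. -/
def OneElement (n : ℕ) (F : Type) [Field F] [NumberField F] : Prop :=
  ∃ f ∈ New n F, Detects n f

/-- An automorphism of order `1, 2, 3, 4` or `6` permutes the places in `Pl n F` transitively. -/
def SmallTrans (n : ℕ) (F : Type) [Field F] [NumberField F] : Prop :=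
  ∃ g : F ≃ₐ[ℚ] F, Small (orderOf g) ∧ Trans n F g

/-- The subspace `W` is stable under the automorphisms of `F`. -/
def Stable {F : Type} [Field F] [NumberField F] (W : Submodule ℝ ((F →+* ℂ) → ℝ)) : Prop :=
  ∀ g : F ≃ₐ[ℚ] F, ∀ f ∈ W, (fun σ : F →+* ℂ => f (σ.comp (g : F →+* F))) ∈ W

/-- Every nonzero subspace `W` of the new functions which is stable under the automorphisms contains a function `f`
with `∑ f(σ) ℒ_n(σ(y)) ≠ 0` for some `y ∈ ker δ_n`. -/
def Enough (n : ℕ) (F : Type) [Field F] [NumberField F] : Prop :=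
  ∀ W : Submodule ℝ ((F →+* ℂ) → ℝ), W ≤ New n F → W ≠ ⊥ → Stable W → ∃ f ∈ W, Detects n f

/-- the sum `∑_{i < m} z^i ℒ_n(σ(g^i(y)))`, where `m` is the order of `g` -/
def charSum (n : ℕ) {E : Type} [Field E] [NumberField E] (g : E ≃ₐ[ℚ] E) (σ : E →+* ℂ) (z : ℂ)
    (y : Cyc E) : ℂ :=
  ∑ i ∈ Finset.range (orderOf g), z ^ i * (reg n y (σ.comp ((g ^ i : E ≃ₐ[ℚ] E) : E →+* E)) : ℂ)

/-- The condition for the characters: `E` is Galois over `ℚ` with cyclic group, generated by `g`, of order `m`, and for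
every primitive `m`-th root of unity `z` there is `y ∈ ker δ_n` with `∑_{i < m} z^i ℒ_n(σ(g^i(y))) ≠ 0`; here `σ` is
some embedding. -/
def CharCond (n : ℕ) (E : Type) [Field E] [NumberField E] : Prop :=
  IsGalois ℚ E ∧ ∃ g : E ≃ₐ[ℚ] E, (∀ x, x ∈ Subgroup.zpowers g) ∧ ∃ σ : E →+* ℂ,
    ∀ z : ℂ, IsPrimitiveRoot z (orderOf g) → ∃ y ∈ kerDelta n E, charSum n g σ z y ≠ 0

/-- The group `G` has a finite dimensional real representation `V ≠ 0` such that no `g ≠ 1` fixes a nonzero
vector. -/
def HasFPF (G : Type) [Group G] : Prop :=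
  ∃ (V : Type) (_ : AddCommGroup V) (_ : Module ℝ V) (ρ : G →* (V →ₗ[ℝ] V)),
    FiniteDimensional ℝ V ∧ Nontrivial V ∧ ∀ g : G, g ≠ 1 → ∀ v : V, ρ g v = v → v = 0

/-- `F` has nonzero new functions. -/
def HasNew (n : ℕ) (F : Type) [Field F] [NumberField F] : Prop := New n F ≠ ⊥

/-- The nonvanishing for `F` follows from the condition `Enough` for the subfields `E ≠ ℚ` of `F` which have nonzero
new functions. -/
def Reduction (n : ℕ) (F : Type) [Field F] [NumberField F] : Prop :=
  (∀ (E : Type) [Field E] [NumberField E], Nonempty (E →+* F) → 1 < Module.finrank ℚ E →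
    HasNew n E → Enough n E) → NonVanishing n F

/-- The nonvanishing for `F` follows from the condition `CharCond` for the subfields `E ≠ ℚ` of `F` which are cyclic
over `ℚ` and have nonzero new functions. -/
def CyclicReduction (n : ℕ) (F : Type) [Field F] [NumberField F] : Prop :=
  (∀ (E : Type) [Field E] [NumberField E], Nonempty (E →+* F) → IsGalois ℚ E →
    IsCyclic (E ≃ₐ[ℚ] E) → 1 < Module.finrank ℚ E → HasNew n E → CharCond n E) → NonVanishing n F

/-- Properties of the group of automorphisms: it has a fixed point free real representation, its abelian subgroups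
and its subgroups of order `p q` are cyclic, and it has at most one element of order `2`. -/
def Restricted (G : Type) [Group G] : Prop :=
  HasFPF G ∧
  (∀ H : Subgroup G, (∀ a b : H, a * b = b * a) → IsCyclic H) ∧
  (∀ (H : Subgroup G) (p q : ℕ), p.Prime → q.Prime → Nat.card H = p * q → IsCyclic H) ∧
  (∀ a b : G, orderOf a = 2 → orderOf b = 2 → a = b)

/-- The number `d_n` of `F` is positive and larger than that of each smaller field. -/
def DimProperty (n : ℕ) (F : Type) [Field F] [NumberField F] : Prop :=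
  0 < dNum n F ∧
  ∀ (E : Type) [Field E] [NumberField E] (φ : E →+* F), ¬ Function.Surjective φ → dNum n E < dNum n F

/-- For odd `n` the field is not CM; if it is Galois over `ℚ`, it is totally real for odd `n` and CM for even `n`. -/
def PlaceProperty (n : ℕ) (F : Type) [Field F] [NumberField F] : Prop :=
  (Odd n → ¬ IsCMField F) ∧ (IsGalois ℚ F → (Odd n → IsTotallyReal F) ∧ (Even n → IsCMField F))

end

end Pool.Agent.E8helper74.ZG
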