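import Pool.Agent.E8helper74.ZG.Fun
import Pool.Agent.E8helper74.ZG.Terms

/-!
# The space which contains the regulators, and the reduction to subfields
-/

set_option autoImplicit false

open NumberField

open scoped ComplexConjugate

namespace Pool.Agent.E8helper74.ZG

noncomputable section

theorem sgn_mul_self (n : ℕ) : sgn n * sgn n = 1 := by
  unfold sgn
  split_ifs <;> norm_num

theorem Li_conj (m : ℕ) (z : ℂ) : Li m (conj z) = conj (Li m z) := by
  unfold Li
  rw [Complex.conj_tsum]
  refine tsum_congr fun k => ?_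
  rw [map_div₀, map_pow, map_pow]
  congr 2
  exact (Complex.conj_natCast _).symm

theorem part_conj (n : ℕ) (w : ℂ) : part n (conj w) = sgn n * part n w := by
  unfold part sgn
  split_ifs
  · rw [Complex.conj_re, one_mul]
  · rw [Complex.conj_im]
    ring

theorem polyIn_conj (n : ℕ) (z : ℂ) : polyIn n (conj z) = sgn n * polyIn n z := by
  unfold polyIn
  rw [← part_conj, map_sum]
  congr 1
  refine Finset.sum_congr rfl fun k _ => ?_
  rw [map_mul, map_mul, Li_conj, map_pow, Complex.conj_ofReal, Complex.norm_conj]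
  congr 2
  exact (map_ratCast (starRingEnd ℂ) _).symm

theorem poly_conj (n : ℕ) (z : ℂ) : poly n (conj z) = sgn n * poly n z := by
  unfold poly
  rw [Complex.norm_conj]
  split_ifs
  · exact polyIn_conj n z
  · rw [← map_inv₀, polyIn_conj]
    ring

theorem reg_mem {F : Type} [Field F] (n : ℕ) (y : Cyc F) : (reg n y : (F →+* ℂ) → ℝ) ∈ Sym n F := by
  intro σ
  unfold reg
  rw [Finsupp.sum, Finsupp.sum, Finset.mul_sum]
  refine Finset.sum_congr rfl fun x _ => ?_
  match x with
  | none =>
    change _ * (0 : ℝ) = _ * (_ * (0 : ℝ))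
    ring
  | some x =>
    change _ * poly n (conj (σ x)) = _ * (_ * poly n (σ x))
    rw [poly_conj]
    ring

/-- the pullback of functions for an embedding of fields -/
def pull {E F : Type} [Field E] [Field F] (φ : E →+* F) :
    ((E →+* ℂ) → ℝ) →ₗ[ℝ] ((F →+* ℂ) → ℝ) :=
  LinearMap.funLeft ℝ ℝ fun σ => σ.comp φ

theorem pull_apply {E F : Type} [Field E] [Field F] (φ : E →+* F) (f : (E →+* ℂ) → ℝ)
    (σ : F →+* ℂ) : pull φ f σ = f (σ.comp φ) := rfl

theorem pull_mem {E F : Type} [Field E] [Field F] (φ : E →+* F) {n : ℕ} {f : (E →+* ℂ) → ℝ}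
    (h : f ∈ Sym n E) : pull φ f ∈ Sym n F := by
  intro σ
  rw [pull_apply, pull_apply]
  exact h (σ.comp φ)

/-- the span of the functions `σ ↦ ℒ_n(σ(y))`, `y ∈ ker δ_n` -/
def regSpan (n : ℕ) (F : Type) [Field F] : Submodule ℝ ((F →+* ℂ) → ℝ) :=
  Submodule.span ℝ {f | ∃ y ∈ kerDelta n F, f = reg n y}

theorem regSpan_le (n : ℕ) (F : Type) [Field F] : regSpan n F ≤ Sym n F := by
  refine Submodule.span_le.mpr ?_
  rintro f ⟨y, _, rfl⟩
  exact reg_mem n y

theorem pull_regSpan {E F : Type} [Field E] [Field F] (φ : E →+* F) {n : ℕ} {f : (E →+* ℂ) → ℝ}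
    (h : f ∈ regSpan n E) : pull φ f ∈ regSpan n F := by
  have h1 : regSpan n E ≤ (regSpan n F).comap (pull φ) := by
    refine Submodule.span_le.mpr ?_
    rintro f ⟨y, hy, rfl⟩
    refine Submodule.subset_span ⟨mp φ y, kerDelta_map φ n hy, ?_⟩
    funext σ
    rw [reg_map, pull_apply]
  exact h1 h

/-- the restriction of a function to the embeddings `σ_1, ..., σ_{d_n}` -/
def rho (n : ℕ) (F : Type) [Field F] : ((F →+* ℂ) → ℝ) →ₗ[ℝ] (Pl n F → ℝ) :=
  LinearMap.funLeft ℝ ℝ fun v => v.1.embedding

theorem rho_apply (n : ℕ) (F : Type) [Field F] (f : (F →+* ℂ) → ℝ) (v : Pl n F) :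
    rho n F f v = f v.1.embedding := rfl

theorem rho_inj {n : ℕ} {F : Type} [Field F] {f g : (F →+* ℂ) → ℝ} (hf : f ∈ Sym n F)
    (hg : g ∈ Sym n F) (h : rho n F f = rho n F g) : f = g := by
  funext σ
  by_cases hv : Odd n ∨ (InfinitePlace.mk σ).IsComplex
  · have h1 : f (InfinitePlace.mk σ).embedding = g (InfinitePlace.mk σ).embedding :=
      congrFun h ⟨InfinitePlace.mk σ, hv⟩
    have h2 : InfinitePlace.mk σ = InfinitePlace.mk (InfinitePlace.mk σ).embedding := by
      rw [InfinitePlace.mk_embedding]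
    rcases InfinitePlace.mk_eq_iff.mp h2 with h3 | h3
    · rw [h3]
      exact h1
    · have h4 : σ = ComplexEmbedding.conjugate (InfinitePlace.mk σ).embedding := by
        rw [← h3]
        exact (star_star σ).symm
      rw [h4, hf, hg, h1]
  · rw [not_or, InfinitePlace.not_isComplex_iff_isReal, InfinitePlace.isReal_mk_iff] at hv
    have h5 : ComplexEmbedding.conjugate σ = σ := ComplexEmbedding.isReal_iff.mp hv.2
    have h6 : sgn n = -1 := if_neg hv.1
    have h7 := hf σ
    have h8 := hg σ
    rw [h5, h6] at h7 h8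
    linarith

open Classical in
theorem rho_surj (n : ℕ) {F : Type} [Field F] (a : Pl n F → ℝ) :
    ∃ f ∈ Sym n F, rho n F f = a := by
  refine ⟨fun σ => if h : Odd n ∨ (InfinitePlace.mk σ).IsComplex then
    (if (InfinitePlace.mk σ).embedding = σ then 1 else sgn n) * a ⟨InfinitePlace.mk σ, h⟩ else 0,
    ?_, ?_⟩
  · intro σ
    have h1 : InfinitePlace.mk (ComplexEmbedding.conjugate σ) = InfinitePlace.mk σ :=
      InfinitePlace.mk_conjugate_eq σ
    simp only [h1]
    split_ifs with h2 h3 h4 h5
    · by_cases h6 : Odd n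
      · have h7 : sgn n = 1 := if_pos h6
        rw [h7, one_mul, one_mul]
      · exfalso
        have h7 := h2.resolve_left h6
        rw [InfinitePlace.isComplex_mk_iff] at h7
        exact h7 (ComplexEmbedding.isReal_iff.mpr (h3.symm.trans h4))
    · rw [← mul_assoc, sgn_mul_self]
    · rw [one_mul]
    · exfalso
      have h2' : InfinitePlace.mk σ = InfinitePlace.mk (InfinitePlace.mk σ).embedding := by
        rw [InfinitePlace.mk_embedding]
      rcases InfinitePlace.mk_eq_iff.mp h2' with h6 | h6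
      · exact h5 h6.symm
      · exact h3 h6.symm
    · rw [mul_zero]
  · funext v
    rw [rho_apply]
    obtain ⟨v, hv⟩ := v
    have h1 : InfinitePlace.mk v.embedding = v := InfinitePlace.mk_embedding v
    simp only [h1]
    rw [dif_pos hv, if_pos trivial, one_mul]

open Classical in
/-- Some regulator determinant is not zero if and only if the regulators span the space `Sym n F`. -/
theorem nonvan_iff (n : ℕ) (F : Type) [Field F] [NumberField F] :
    NonVanishing n F ↔ Sym n F ≤ regSpan n F := by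
  constructor
  · rintro ⟨y, hy⟩ f hf
    set M : Matrix (Pl n F) (Pl n F) ℝ := fun v w => reg n (y v : Cyc F) w.1.embedding with hM
    have hM1 : IsUnit M := (Matrix.isUnit_iff_isUnit_det _).mpr (isUnit_iff_ne_zero.mpr hy)
    have h1 : LinearIndependent ℝ M.row := Matrix.linearIndependent_rows_iff_isUnit.mpr hM1
    have h2 : Submodule.span ℝ (Set.range M.row) = ⊤ := by
      refine LinearIndependent.span_eq_top_of_card_eq_finrank' h1 ?_
      rw [Module.finrank_fintype_fun_eq_card]
    have h3 : rho n F f ∈ Submodule.span ℝ (Set.range M.row) := by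
      rw [h2]
      exact Submodule.mem_top
    rw [Submodule.mem_span_range_iff_exists_fun] at h3
    obtain ⟨c, hc⟩ := h3
    have h4 : (∑ v, c v • (reg n (y v : Cyc F) : (F →+* ℂ) → ℝ)) ∈ regSpan n F :=
      Submodule.sum_mem _ fun v _ => Submodule.smul_mem _ _ (Submodule.subset_span ⟨_, (y v).2, rfl⟩)
    have h5 : f = ∑ v, c v • (reg n (y v : Cyc F) : (F →+* ℂ) → ℝ) := by
      refine rho_inj hf (regSpan_le n F h4) ?_
      rw [← hc, map_sum]
      refine Finset.sum_congr rfl fun v _ => ?_
      rw [map_smul]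
      rfl
    rw [h5]
    exact h4
  · intro h
    have h1 : Submodule.span ℝ {g : Pl n F → ℝ | ∃ y ∈ kerDelta n F, g = rho n F (reg n y)} = ⊤ := by
      rw [eq_top_iff]
      intro a _
      obtain ⟨f, hf, rfl⟩ := rho_surj n a
      have h2 := h hf
      have h3 : regSpan n F ≤ (Submodule.span ℝ {g : Pl n F → ℝ | ∃ y ∈ kerDelta n F,
          g = rho n F (reg n y)}).comap (rho n F) := by
        refine Submodule.span_le.mpr ?_
        rintro g ⟨y, hy, rfl⟩
        exact Submodule.subset_span ⟨y, hy, rfl⟩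
      exact h3 h2
    obtain ⟨b, hb1, hb2, hb3⟩ := exists_linearIndependent ℝ
      {g : Pl n F → ℝ | ∃ y ∈ kerDelta n F, g = rho n F (reg n y)}
    rw [h1] at hb2
    let B : Module.Basis b ℝ (Pl n F → ℝ) := Module.Basis.mk hb3 (by
      rw [Subtype.range_coe_subtype, Set.ofPred_mem_eq, hb2])
    let e : Pl n F ≃ b := (Pi.basisFun ℝ (Pl n F)).indexEquiv B
    have h4 : ∀ v : Pl n F, ∃ y ∈ kerDelta n F, (e v : Pl n F → ℝ) = rho n F (reg n y) :=
      fun v => hb1 (e v).2
    choose y hy1 hy2 using h4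
    refine ⟨fun v => ⟨y v, hy1 v⟩, ?_⟩
    have h5 : LinearIndependent ℝ (fun v : Pl n F => (e v : Pl n F → ℝ)) :=
      hb3.comp e e.injective
    have h6 : LinearIndependent ℝ
        (Matrix.row (fun v w : Pl n F => reg n (y v) w.1.embedding : Matrix _ _ ℝ)) := by
      convert h5 using 1
      funext v w
      rw [hy2 v]
      rfl
    have h7 := (Matrix.isUnit_iff_isUnit_det _).mp (Matrix.linearIndependent_rows_iff_isUnit.mp h6)
    exact isUnit_iff_ne_zero.mp h7

end

end Pool.Agent.E8helper74.ZG
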