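import Pool.Agent.E8helper74.ZG.Lin

/-!
# The new space and the reduction to subfields
-/

set_option autoImplicit false

open NumberField

open scoped ComplexConjugate

namespace Pool.Agent.E8helper74.ZG

noncomputable section

/-- the old functions: the span of the pullbacks from the fields `E` with a non surjective `E →+* F` -/
def oldSpan (n : ℕ) (F : Type) [Field F] : Submodule ℝ ((F →+* ℂ) → ℝ) :=
  Submodule.span ℝ {f | ∃ (E : Type) (_ : Field E) (_ : NumberField E) (φ : E →+* F),
    ¬ Function.Surjective φ ∧ ∃ g ∈ Sym n E, f = pull φ g}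

theorem conj_conj {F : Type} [Field F] (σ : F →+* ℂ) :
    ComplexEmbedding.conjugate (ComplexEmbedding.conjugate σ) = σ :=
  ComplexEmbedding.involutive_conjugate F σ

theorem sum_conj {F : Type} [Field F] [NumberField F] (f : (F →+* ℂ) → ℝ) :
    ∑ σ : F →+* ℂ, f (ComplexEmbedding.conjugate σ) = ∑ σ : F →+* ℂ, f σ :=
  Equiv.sum_comp (ComplexEmbedding.involutive_conjugate F).toPerm f

open Classical in
theorem repr_new (n : ℕ) (F : Type) [Field F] [NumberField F] (ℓ : ((F →+* ℂ) → ℝ) →ₗ[ℝ] ℝ)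
    (hℓ' : oldSpan n F ≤ LinearMap.ker ℓ) :
    ∃ h1 ∈ New n F, ∀ f ∈ Sym n F, ∑ σ, f σ * h1 σ = 2 * ℓ f := by
  have hsum : ∀ g : (F →+* ℂ) → ℝ, ℓ g = ∑ σ, g σ * ℓ (fun σ' => if σ = σ' then 1 else 0) := by
    intro g
    rw [LinearMap.pi_apply_eq_sum_univ]
    rfl
  set h0 : (F →+* ℂ) → ℝ := fun σ => ℓ (fun σ' => if σ = σ' then 1 else 0) with hh0
  set h1 : (F →+* ℂ) → ℝ := fun σ => h0 σ + sgn n * h0 (ComplexEmbedding.conjugate σ) with hh1
  have hs := sgn_mul_self n
  have h2 : h1 ∈ New n F := by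
    refine ⟨?_, ?_⟩
    · intro σ
      change h0 _ + sgn n * h0 (ComplexEmbedding.conjugate (ComplexEmbedding.conjugate σ)) =
        sgn n * (h0 σ + sgn n * h0 (ComplexEmbedding.conjugate σ))
      rw [conj_conj]
      linear_combination (-(h0 (ComplexEmbedding.conjugate σ))) * hs
    · intro E _ _ φ hφ τ
      set g : (E →+* ℂ) → ℝ := fun τ' => (if τ' = τ then 1 else 0) +
        sgn n * (if ComplexEmbedding.conjugate τ' = τ then 1 else 0) with hg
      have hg1 : g ∈ Sym n E := by
        intro τ'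
        change (if ComplexEmbedding.conjugate τ' = τ then 1 else 0) +
          sgn n * (if ComplexEmbedding.conjugate (ComplexEmbedding.conjugate τ') = τ then 1 else 0) =
          sgn n * ((if τ' = τ then 1 else 0) +
            sgn n * (if ComplexEmbedding.conjugate τ' = τ then 1 else 0))
        rw [conj_conj]
        linear_combination (-(if ComplexEmbedding.conjugate τ' = τ then (1 : ℝ) else 0)) * hs
      have hg2 : pull φ g ∈ oldSpan n F :=
        Submodule.subset_span ⟨E, inferInstance, inferInstance, φ, hφ, g, hg1, rfl⟩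
      have hg3 : ℓ (pull φ g) = 0 := hℓ' hg2
      rw [hsum] at hg3
      rw [Finset.sum_filter]
      change (∑ σ, if σ.comp φ = τ then h0 σ + sgn n * h0 (ComplexEmbedding.conjugate σ) else 0) = 0
      have h3 : (∑ σ : F →+* ℂ, if σ.comp φ = τ then
          h0 σ + sgn n * h0 (ComplexEmbedding.conjugate σ) else 0) =
          (∑ σ : F →+* ℂ, (if σ.comp φ = τ then 1 else 0) * h0 σ) + ∑ σ : F →+* ℂ,
            sgn n * ((if σ.comp φ = τ then 1 else 0) * h0 (ComplexEmbedding.conjugate σ)) := by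
        rw [← Finset.sum_add_distrib]
        refine Finset.sum_congr rfl fun σ _ => ?_
        split_ifs <;> ring
      have h4 : (∑ σ : F →+* ℂ,
            sgn n * ((if σ.comp φ = τ then 1 else 0) * h0 (ComplexEmbedding.conjugate σ))) =
          ∑ σ : F →+* ℂ, sgn n *
            ((if (ComplexEmbedding.conjugate σ).comp φ = τ then 1 else 0) * h0 σ) := by
        rw [← sum_conj]
        refine Finset.sum_congr rfl fun σ _ => ?_
        rw [conj_conj]
      rw [h3, h4, ← Finset.sum_add_distrib]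
      refine Eq.trans ?_ hg3
      refine Finset.sum_congr rfl fun σ _ => ?_
      change _ = ((if σ.comp φ = τ then 1 else 0) +
        sgn n * (if ComplexEmbedding.conjugate (σ.comp φ) = τ then 1 else 0)) * h0 σ
      have h5 : (ComplexEmbedding.conjugate σ).comp φ = ComplexEmbedding.conjugate (σ.comp φ) := rfl
      rw [h5]
      ring
  refine ⟨h1, h2, fun f hf => ?_⟩
  have h7 : ∑ σ, f σ * h1 σ = (∑ σ, f σ * h0 σ) +
      ∑ σ, sgn n * (f σ * h0 (ComplexEmbedding.conjugate σ)) := by
    rw [← Finset.sum_add_distrib]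
    refine Finset.sum_congr rfl fun σ _ => ?_
    change f σ * (h0 σ + sgn n * h0 (ComplexEmbedding.conjugate σ)) = _
    ring
  have h8 : (∑ σ, sgn n * (f σ * h0 (ComplexEmbedding.conjugate σ))) = ∑ σ, f σ * h0 σ := by
    rw [← sum_conj]
    refine Finset.sum_congr rfl fun σ _ => ?_
    rw [conj_conj, hf σ]
    linear_combination (f σ * h0 σ) * hs
  rw [h7, h8, hsum f]
  ring

theorem sym_le (n : ℕ) (F : Type) [Field F] [NumberField F] :
    Sym n F ≤ New n F ⊔ oldSpan n F := by
  intro f hf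
  by_contra hf0
  obtain ⟨ℓ, hℓ, hℓ''⟩ := Submodule.exists_le_ker_of_notMem hf0
  obtain ⟨h1, h2, h6⟩ := repr_new n F ℓ (le_sup_right.trans hℓ'')
  have h9 : ℓ h1 = 0 := hℓ'' (Submodule.mem_sup_left h2)
  have h10 := h6 h1 h2.1
  rw [h9, mul_zero, Finset.sum_eq_zero_iff_of_nonneg (fun σ _ => mul_self_nonneg _)] at h10
  have h11 := h6 f hf
  have h12 : ∑ σ, f σ * h1 σ = 0 := by
    refine Finset.sum_eq_zero fun σ hσ => ?_
    rw [mul_self_eq_zero.mp (h10 σ hσ), mul_zero]
  rw [h12] at h11
  apply hℓ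
  linarith

theorem finrank_lt {E F : Type} [Field E] [NumberField E] [Field F] [NumberField F] (φ : E →+* F)
    (h : ¬ Function.Surjective φ) : Module.finrank ℚ E < Module.finrank ℚ F := by
  have h1 : Function.Injective φ.toRatAlgHom.toLinearMap := φ.injective
  have h2 := LinearMap.finrank_le_finrank_of_injective h1
  refine lt_of_le_of_ne h2 fun h3 => h ?_
  exact (LinearMap.injective_iff_surjective_of_finrank_eq_finrank h3).mp h1

/-- the permutation of the embeddings given by an automorphism -/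
def perm {F : Type} [Field F] [NumberField F] (g : F ≃ₐ[ℚ] F) : (F →+* ℂ) ≃ (F →+* ℂ) where
  toFun σ := σ.comp (g : F →+* F)
  invFun σ := σ.comp (g.symm : F →+* F)
  left_inv σ := by
    ext x
    change σ (g (g.symm x)) = σ x
    rw [AlgEquiv.apply_symm_apply]
  right_inv σ := by
    ext x
    change σ (g.symm (g x)) = σ x
    rw [AlgEquiv.symm_apply_apply]

/-- the action of an automorphism on functions -/
theorem new_comp {n : ℕ} {F : Type} [Field F] [NumberField F] {f : (F →+* ℂ) → ℝ} (hf : f ∈ New n F)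
    (g : F ≃ₐ[ℚ] F) : pull (g : F →+* F) f ∈ New n F := by
  classical
  refine ⟨pull_mem _ hf.1, ?_⟩
  intro E _ _ φ hφ τ
  have h1 := hf.2 E ((g.symm : F →+* F).comp φ) (by
      intro h
      apply hφ
      intro x
      obtain ⟨y, hy⟩ := h (g.symm x)
      exact ⟨y, g.symm.injective hy⟩) τ
  rw [← h1]
  refine Finset.sum_equiv (perm g) ?_ ?_
  · intro σ
    rw [Finset.mem_filter, Finset.mem_filter]
    refine and_congr (by simp) ?_
    have h2 : (perm g σ).comp ((g.symm : F →+* F).comp φ) = σ.comp φ := by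
      ext x
      change σ (g (g.symm (φ x))) = σ (φ x)
      rw [AlgEquiv.apply_symm_apply]
    rw [h2]
  · intro σ _
    rfl

/-- A nontrivial automorphism does not fix a nonzero new function. -/
theorem new_fix {n : ℕ} {F : Type} [Field F] [NumberField F] {f : (F →+* ℂ) → ℝ} (hf : f ∈ New n F)
    (g : F ≃ₐ[ℚ] F) (hg : g ≠ 1) (h : pull (g : F →+* F) f = f) : f = 0 := by
  classical
  set H : Subgroup (F ≃ₐ[ℚ] F) := Subgroup.zpowers g with hH
  set E : IntermediateField ℚ F := IntermediateField.fixedField H with hE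
  have hgal : IsGalois E F := IsGalois.of_fixed_field F H
  have hφ : ¬ Function.Surjective (algebraMap E F) := by
    intro hs
    apply hg
    ext x
    obtain ⟨y, rfl⟩ := hs x
    exact y.2 ⟨g, Subgroup.mem_zpowers g⟩
  have hinv : ∀ k ∈ H, ∀ σ : F →+* ℂ, f (σ.comp (k : F →+* F)) = f σ := by
    intro k hk
    obtain ⟨m, rfl⟩ := Subgroup.mem_zpowers_iff.mp hk
    have h1 : ∀ σ : F →+* ℂ, f (σ.comp (g : F →+* F)) = f σ := fun σ => congrFun h σ
    have h2 : ∀ σ : F →+* ℂ, f (σ.comp (g.symm : F →+* F)) = f σ := by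
      intro σ
      rw [← h1]
      congr 1
      exact (perm g).right_inv σ
    induction m with
    | zero =>
      intro σ
      congr 1
    | succ m ih =>
      intro σ
      have h3 : σ.comp (((g ^ ((m : ℤ) + 1) : F ≃ₐ[ℚ] F)) : F →+* F) =
          (σ.comp ((g ^ (m : ℤ) : F ≃ₐ[ℚ] F) : F →+* F)).comp (g : F →+* F) := by
        rw [zpow_add_one]
        rfl
      rw [h3, h1, ih (zpow_mem (Subgroup.mem_zpowers g) _)]
    | pred m ih =>
      intro σ
      have h3 : σ.comp (((g ^ (-(m : ℤ) - 1) : F ≃ₐ[ℚ] F)) : F →+* F) =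
          (σ.comp ((g ^ (-(m : ℤ)) : F ≃ₐ[ℚ] F) : F →+* F)).comp (g.symm : F →+* F) := by
        rw [zpow_sub_one]
        rfl
      rw [h3, h2, ih (zpow_mem (Subgroup.mem_zpowers g) _)]
  funext σ0
  have h1 := hf.2 E (algebraMap E F) hφ (σ0.comp (algebraMap E F))
  have h2 : ∀ σ ∈ Finset.univ.filter (fun σ : F →+* ℂ =>
      σ.comp (algebraMap E F) = σ0.comp (algebraMap E F)), f σ = f σ0 := by
    intro σ hσ
    rw [Finset.mem_filter] at hσ
    obtain ⟨k, hk⟩ := ComplexEmbedding.exists_comp_symm_eq_of_comp_eq (k := E) σ0 σ hσ.2.symm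
    set k' : F ≃ₐ[ℚ] F := k.symm.restrictScalars ℚ with hk'
    have h3 : k' ∈ H := by
      rw [← IntermediateField.fixingSubgroup_fixedField H]
      intro x
      exact k.symm.commutes x
    have h4 := hinv k' h3 σ0
    rw [← h4, ← hk]
    rfl
  rw [Finset.sum_congr rfl h2, Finset.sum_const, nsmul_eq_mul] at h1
  rcases mul_eq_zero.mp h1 with h3 | h3
  · rw [Nat.cast_eq_zero, Finset.card_eq_zero] at h3
    exact absurd h3 (Finset.ne_empty_of_mem (Finset.mem_filter.mpr ⟨Finset.mem_univ σ0, rfl⟩))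
  · exact h3

end

end Pool.Agent.E8helper74.ZG
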