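import Pool.Agent.E8helper74.ZG.Red
import Pool.Agent.E8helper74.ZG.Fin

/-!
# The field of rational numbers, and abelian fields of exponent 4 or 6
-/

set_option autoImplicit false

open NumberField

namespace Pool.Agent.E8helper74.ZG

noncomputable section

theorem one_mem_ker {n : ℕ} (F : Type) [Field F] : pt (some (1 : F)) ∈ kerDelta n F := by
  classical
  unfold kerDelta kerOf
  split_ifs with h
  · rw [AddMonoidHom.mem_ker, deltaTwo_pt]
    exact dif_neg (by simp)
  · rw [AddMonoidHom.mem_ker, deltaNext_pt]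
    exact dif_neg (by simp)

theorem poly_one {n : ℕ} (hn : 2 ≤ n) (ho : Odd n) : 0 < poly n 1 := by
  unfold poly
  rw [if_pos (by simp)]
  unfold polyIn
  have h1 : ∑ k ∈ Finset.range n, ((2 ^ k * bernoulli k / k.factorial : ℚ) : ℂ) *
      ((Real.log ‖(1 : ℂ)‖ : ℝ) : ℂ) ^ k * Li (n - k) 1 = Li n 1 := by
    rw [Finset.sum_eq_single 0]
    · simp
    · intro k _ hk
      rw [norm_one, Real.log_one, Complex.ofReal_zero, zero_pow hk]
      ring
    · intro h
      exact absurd (Finset.mem_range.mpr (by omega)) h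
  rw [h1]
  unfold part
  rw [if_pos ho]
  unfold Li
  have h2 : ∀ k : ℕ, (1 : ℂ) ^ (k + 1) / ((k + 1 : ℕ) : ℂ) ^ n = (((1 : ℝ) / ((k + 1 : ℕ) : ℝ) ^ n : ℝ) : ℂ) := by
    intro k
    push_cast
    rw [one_pow]
  simp only [h2]
  rw [← Complex.ofReal_tsum, Complex.ofReal_re]
  have h3 : Summable (fun k : ℕ => (1 : ℝ) / ((k + 1 : ℕ) : ℝ) ^ n) :=
    (summable_nat_add_iff 1).mpr (Real.summable_one_div_nat_pow.mpr (by omega))
  refine h3.tsum_pos (fun k => by positivity) 0 ?_
  norm_num

theorem oneElement_deg_one {n : ℕ} (hn : 2 ≤ n) {E : Type} [Field E] [NumberField E]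
    (hE : Module.finrank ℚ E = 1) (h : New n E ≠ ⊥) : SmallTrans n E ∧ OneElement n E := by
  have hc : Fintype.card (E →+* ℂ) = 1 := by rw [Embeddings.card, hE]
  have hsub : Subsingleton (E →+* ℂ) := Fintype.card_le_one_iff_subsingleton.mp hc.le
  refine ⟨⟨1, Or.inl orderOf_one, ?_⟩, ?_⟩
  · intro v w
    refine ⟨0, ?_⟩
    have h1 : v = w := by
      apply Subtype.ext
      rw [← InfinitePlace.mk_embedding v.1, ← InfinitePlace.mk_embedding w.1,
        Subsingleton.elim v.1.embedding w.1.embedding]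
    rw [h1]
    rfl
  · have ho : Odd n := by
      by_contra ho
      obtain ⟨f, hf, hf0⟩ := Submodule.exists_mem_ne_zero_of_ne_bot h
      apply hf0
      funext σ
      have h1 := hf.1 σ
      have h2 : sgn n = -1 := if_neg ho
      rw [Subsingleton.elim (ComplexEmbedding.conjugate σ) σ, h2] at h1
      rw [Pi.zero_apply]
      linarith
    obtain ⟨f, hf, hf0⟩ := Submodule.exists_mem_ne_zero_of_ne_bot h
    refine ⟨f, hf, _, one_mem_ker E, ?_⟩
    obtain ⟨σ0⟩ : Nonempty (E →+* ℂ) := inferInstance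
    have huniv : (Finset.univ : Finset (E →+* ℂ)) = {σ0} := by
      ext σ
      simp [Subsingleton.elim σ σ0]
    rw [huniv, Finset.sum_singleton]
    refine mul_ne_zero ?_ ?_
    · intro h1
      apply hf0
      funext σ
      rw [Subsingleton.elim σ σ0]
      exact h1
    · unfold reg pt
      rw [Finsupp.sum_single_index (by simp)]
      rw [Option.map_some, map_one]
      change ((1 : ℤ) : ℝ) * poly n 1 ≠ 0
      rw [Int.cast_one, one_mul]
      exact (poly_one hn ho).ne'

theorem trans_of_galois {n : ℕ} {E : Type} [Field E] [NumberField E] [IsGalois ℚ E]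
    (g : E ≃ₐ[ℚ] E) (hg : ∀ x, x ∈ Subgroup.zpowers g) : Trans n E g := by
  intro v w
  obtain ⟨k, hk⟩ := ComplexEmbedding.exists_comp_symm_eq_of_comp_eq (k := ℚ) v.1.embedding
    w.1.embedding (RingHom.ext_rat _ _)
  obtain ⟨i, hi⟩ := (isOfFinOrder_of_finite g).mem_powers_iff_mem_zpowers.mpr (hg k.symm)
  refine ⟨i, ?_⟩
  have h1 : g ^ i = k.symm := hi
  rw [h1, ← InfinitePlace.mk_embedding w.1, ← hk, ← InfinitePlace.comap_mk,
    InfinitePlace.mk_embedding]

theorem smallTrans_of_cyclic {n : ℕ} {E : Type} [Field E] [NumberField E] [IsGalois ℚ E]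
    (hc : IsCyclic (E ≃ₐ[ℚ] E)) (hE : Small (Module.finrank ℚ E)) : SmallTrans n E := by
  obtain ⟨g, hg⟩ := hc.exists_generator
  refine ⟨g, ?_, trans_of_galois g hg⟩
  have h1 : orderOf g = Module.finrank ℚ E := by
    rw [← IsGalois.card_aut_eq_finrank, orderOf_eq_card_of_forall_mem_zpowers hg]
  rw [h1]
  exact hE

theorem cyclic_of_small {n : ℕ} {E : Type} [Field E] [NumberField E] [IsGalois ℚ E]
    (hE : Small (Module.finrank ℚ E)) (h : New n E ≠ ⊥) : IsCyclic (E ≃ₐ[ℚ] E) := by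
  have hG := hasFPF_of_new h
  have hcard : Nat.card (E ≃ₐ[ℚ] E) = Module.finrank ℚ E := IsGalois.card_aut_eq_finrank ℚ E
  rcases hE with hE | hE | hE | hE | hE
  · have h1 : Subsingleton (E ≃ₐ[ℚ] E) := by
      rw [hE] at hcard
      exact (Nat.card_eq_one_iff_unique.mp hcard).1
    exact inferInstance
  · have : Fact (Nat.Prime 2) := ⟨Nat.prime_two⟩
    exact isCyclic_of_prime_card (hcard.trans hE)
  · have : Fact (Nat.Prime 3) := ⟨Nat.prime_three⟩
    exact isCyclic_of_prime_card (hcard.trans hE)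
  · exact hG.cyclic_of_card Nat.prime_two Nat.prime_two (hcard.trans hE)
  · exact hG.cyclic_of_card Nat.prime_two Nat.prime_three (hcard.trans hE)

theorem small_of_dvd (m k : ℕ) (hk : k = 4 ∨ k = 6) (h : m ∣ k) : Small m := by
  have h4 : m ≤ 6 := by
    have := Nat.le_of_dvd (by omega) h
    omega
  unfold Small
  rcases hk with rfl | rfl <;> interval_cases m <;> revert h <;> decide

/-- the subfields of an abelian field of exponent `4` or `6` with nonzero new functions -/
theorem abelian_sub {n : ℕ} {E F : Type} [Field E] [NumberField E] [Field F] [NumberField F]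
    [IsAbelianGalois ℚ F] (k : ℕ) (hk : k = 4 ∨ k = 6) (hF : ∀ a : F ≃ₐ[ℚ] F, a ^ k = 1)
    (φ : E →+* F) (h : New n E ≠ ⊥) :
    IsGalois ℚ E ∧ IsCyclic (E ≃ₐ[ℚ] E) ∧ Small (Module.finrank ℚ E) := by
  have hA : IsAbelianGalois ℚ E := IsAbelianGalois.of_algHom φ.toRatAlgHom
  have hc : IsCyclic (E ≃ₐ[ℚ] E) := by
    refine (hasFPF_of_new h).cyclic_of_comm fun a b => ?_
    exact mul_comm' a b
  refine ⟨inferInstance, hc, ?_⟩
  obtain ⟨g, hg⟩ := hc.exists_generator
  have h1 : orderOf g = Module.finrank ℚ E := by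
    rw [← IsGalois.card_aut_eq_finrank, orderOf_eq_card_of_forall_mem_zpowers hg]
  let _ : Algebra E F := φ.toAlgebra
  have : IsScalarTower ℚ E F := inferInstance
  obtain ⟨g', hg'⟩ := AlgEquiv.restrictNormalHom_surjective (F := ℚ) (K₁ := E) F g
  have h2 : g ^ k = 1 := by
    rw [← hg', ← map_pow, hF, map_one]
  have h3 : orderOf g ∣ k := orderOf_dvd_of_pow_eq_one h2
  rw [← h1]
  exact small_of_dvd _ k hk h3

end

end Pool.Agent.E8helper74.ZG
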