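import Pool.Agent.E8helper74.ZG.New

/-!
# Irreducibility of the new space and the reduction
-/

set_option autoImplicit false

open NumberField

namespace Pool.Agent.E8helper74.ZG

noncomputable section

theorem pull_pull {F : Type} [Field F] [NumberField F] (g h : F ≃ₐ[ℚ] F) (f : (F →+* ℂ) → ℝ) :
    pull (g : F →+* F) (pull (h : F →+* F) f) = pull ((g * h : F ≃ₐ[ℚ] F) : F →+* F) f := rfl

theorem pull_one {F : Type} [Field F] [NumberField F] (f : (F →+* ℂ) → ℝ) :
    pull ((1 : F ≃ₐ[ℚ] F) : F →+* F) f = f := rfl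

theorem eq_zero_of_places {n : ℕ} {F : Type} [Field F] [NumberField F] {f : (F →+* ℂ) → ℝ}
    (hf : f ∈ Sym n F) (h : ∀ v : Pl n F, f v.1.embedding = 0) : f = 0 := by
  refine rho_inj hf (zero_mem _) ?_
  funext v
  exact h v

/-- Under the transitivity a function in `Sym n F` is determined by its values at the `σ ∘ g ^ i`. -/
theorem eq_zero_of_trans {n : ℕ} {F : Type} [Field F] [NumberField F] {g : F ≃ₐ[ℚ] F}
    (hg : Trans n F g) (v : Pl n F) {f : (F →+* ℂ) → ℝ} (hf : f ∈ Sym n F)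
    (h : ∀ i : ℕ, pull ((g ^ i : F ≃ₐ[ℚ] F) : F →+* F) f v.1.embedding = 0) : f = 0 := by
  refine eq_zero_of_places hf fun w => ?_
  obtain ⟨i, hi⟩ := hg v w
  have h1 : InfinitePlace.mk w.1.embedding =
      InfinitePlace.mk (v.1.embedding.comp ((g ^ i : F ≃ₐ[ℚ] F) : F →+* F)) := by
    rw [InfinitePlace.mk_embedding, hi, ← InfinitePlace.comap_mk, InfinitePlace.mk_embedding]
  have h2 := h i
  rw [pull_apply] at h2
  rcases InfinitePlace.mk_eq_iff.mp h1 with h3 | h3
  · rw [h3]
    exact h2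
  · rw [← h3, hf] at h2
    rcases mul_eq_zero.mp h2 with h4 | h4
    · exfalso
      have h5 := sgn_mul_self n
      rw [h4] at h5
      norm_num at h5
    · exact h4

/-- the relations satisfied by `g` on the new functions -/
theorem quad {n : ℕ} {F : Type} [Field F] [NumberField F] (g : F ≃ₐ[ℚ] F)
    (hm : orderOf g = 3 ∨ orderOf g = 4 ∨ orderOf g = 6) : ∃ b : ℝ, ∀ f ∈ New n F,
    pull (g : F →+* F) (pull (g : F →+* F) f) = -f + b • pull (g : F →+* F) f := by
  have hfix : ∀ (k : ℕ) (f : (F →+* ℂ) → ℝ), ¬ orderOf g ∣ k → f ∈ New n F →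
      pull ((g ^ k : F ≃ₐ[ℚ] F) : F →+* F) f = f → f = 0 := by
    intro k f hk hf h
    exact new_fix hf (g ^ k) (fun h1 => hk (orderOf_dvd_of_pow_eq_one h1)) h
  have hpow : ∀ (k l : ℕ) (f : (F →+* ℂ) → ℝ), pull ((g ^ k : F ≃ₐ[ℚ] F) : F →+* F)
      (pull ((g ^ l : F ≃ₐ[ℚ] F) : F →+* F) f) = pull ((g ^ (k + l) : F ≃ₐ[ℚ] F) : F →+* F) f := by
    intro k l f
    rw [pull_pull, pow_add]
  have hone : ∀ f : (F →+* ℂ) → ℝ, pull (g : F →+* F) f = pull ((g ^ 1 : F ≃ₐ[ℚ] F) : F →+* F) f := by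
    intro f
    rw [pow_one]
  have hord : ∀ f : (F →+* ℂ) → ℝ, pull ((g ^ orderOf g : F ≃ₐ[ℚ] F) : F →+* F) f = f := by
    intro f
    rw [pow_orderOf_eq_one, pull_one]
  have hnew : ∀ (k : ℕ) (f : (F →+* ℂ) → ℝ), f ∈ New n F →
      pull ((g ^ k : F ≃ₐ[ℚ] F) : F →+* F) f ∈ New n F := fun k f hf => new_comp hf _
  rcases hm with hm | hm | hm
  · refine ⟨-1, fun f hf => ?_⟩
    have h1 : f + pull ((g ^ 1 : F ≃ₐ[ℚ] F) : F →+* F) f + pull ((g ^ 2 : F ≃ₐ[ℚ] F) : F →+* F) f = 0 := by
      refine hfix 1 _ (by rw [hm]; decide)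
        (add_mem (add_mem hf (hnew 1 f hf)) (hnew 2 f hf)) ?_
      rw [map_add, map_add, hpow, hpow]
      have h2 := hord f
      rw [hm] at h2
      rw [show 1 + 2 = 3 from rfl, h2]
      abel
    rw [hone, hone, hpow]
    have h3 : pull ((g ^ 2 : F ≃ₐ[ℚ] F) : F →+* F) f = -(f + pull ((g ^ 1 : F ≃ₐ[ℚ] F) : F →+* F) f) :=
      (neg_eq_of_add_eq_zero_right h1).symm
    rw [show 1 + 1 = 2 from rfl, h3]
    module
  · refine ⟨0, fun f hf => ?_⟩
    have h1 : f + pull ((g ^ 2 : F ≃ₐ[ℚ] F) : F →+* F) f = 0 := by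
      refine hfix 2 _ (by rw [hm]; decide) (add_mem hf (hnew 2 f hf)) ?_
      rw [map_add, hpow]
      have h2 := hord f
      rw [hm] at h2
      rw [show 2 + 2 = 4 from rfl, h2]
      abel
    rw [hone, hone, hpow]
    have h3 : pull ((g ^ 2 : F ≃ₐ[ℚ] F) : F →+* F) f = -f :=
      (neg_eq_of_add_eq_zero_right h1).symm
    rw [show 1 + 1 = 2 from rfl, h3]
    module
  · refine ⟨1, fun f hf => ?_⟩
    have h1 : f + pull ((g ^ 3 : F ≃ₐ[ℚ] F) : F →+* F) f = 0 := by
      refine hfix 3 _ (by rw [hm]; decide) (add_mem hf (hnew 3 f hf)) ?_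
      rw [map_add, hpow]
      have h2 := hord f
      rw [hm] at h2
      rw [show 3 + 3 = 6 from rfl, h2]
      abel
    have h4 : f + pull ((g ^ 2 : F ≃ₐ[ℚ] F) : F →+* F) f + pull ((g ^ 4 : F ≃ₐ[ℚ] F) : F →+* F) f = 0 := by
      refine hfix 2 _ (by rw [hm]; decide)
        (add_mem (add_mem hf (hnew 2 f hf)) (hnew 4 f hf)) ?_
      rw [map_add, map_add, hpow, hpow]
      have h2 := hord f
      rw [hm] at h2
      rw [show 2 + 2 = 4 from rfl, show 2 + 4 = 6 from rfl, h2]
      abel
    have h5 : pull ((g ^ 4 : F ≃ₐ[ℚ] F) : F →+* F) f = -pull ((g ^ 1 : F ≃ₐ[ℚ] F) : F →+* F) f := by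
      have h6 : pull ((g ^ 3 : F ≃ₐ[ℚ] F) : F →+* F) f = -f :=
        (neg_eq_of_add_eq_zero_right h1).symm
      rw [show 4 = 1 + 3 from rfl, ← hpow, h6, map_neg]
    rw [hone, hone, hpow]
    rw [h5] at h4
    have h3 : pull ((g ^ 2 : F ≃ₐ[ℚ] F) : F →+* F) f =
        -f + pull ((g ^ 1 : F ≃ₐ[ℚ] F) : F →+* F) f := by
      have h7 : pull ((g ^ 2 : F ≃ₐ[ℚ] F) : F →+* F) f = (f + pull ((g ^ 2 : F ≃ₐ[ℚ] F) : F →+* F) f +
        -pull ((g ^ 1 : F ≃ₐ[ℚ] F) : F →+* F) f) + (-f + pull ((g ^ 1 : F ≃ₐ[ℚ] F) : F →+* F) f) := by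
        abel
      rw [h7, h4, zero_add]
    rw [show 1 + 1 = 2 from rfl, h3, one_smul]

/-- the stable subspaces of the new space -/
theorem irred {n : ℕ} {F : Type} [Field F] [NumberField F] (g : F ≃ₐ[ℚ] F) (hs : Small (orderOf g))
    (hg : Trans n F g) (W : Submodule ℝ ((F →+* ℂ) → ℝ)) (hW : W ≤ New n F)
    (hWg : ∀ f ∈ W, pull (g : F →+* F) f ∈ W) (hW0 : W ≠ ⊥) : W = New n F := by
  obtain ⟨w, hw, hw0⟩ := Submodule.exists_mem_ne_zero_of_ne_bot hW0
  obtain ⟨v⟩ : Nonempty (Pl n F) := by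
    by_contra hne
    rw [not_nonempty_iff] at hne
    exact hw0 (eq_zero_of_places (hW hw).1 fun v => hne.elim v)
  have hlow : orderOf g = 1 ∨ orderOf g = 2 → W = New n F := by
    intro hm
    have h1 : ∀ f ∈ New n F, f v.1.embedding = 0 → f = 0 := by
      intro f hf h0
      refine eq_zero_of_trans hg v hf.1 fun i => ?_
      rcases hm with hm | hm
      · rw [orderOf_eq_one_iff] at hm
        rw [hm, one_pow, pull_one, h0]
      · have hg2 : g * g = 1 := by
          rw [← pow_two, ← hm, pow_orderOf_eq_one]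
        have hg1 : g ≠ 1 := by
          intro h2
          rw [h2, orderOf_one] at hm
          norm_num at hm
        have h2 : f + pull (g : F →+* F) f = 0 := by
          refine new_fix (add_mem hf (new_comp hf g)) g hg1 ?_
          rw [map_add, pull_pull, hg2, pull_one]
          abel
        have h3 : pull (g : F →+* F) f = -f := (neg_eq_of_add_eq_zero_right h2).symm
        rcases Nat.even_or_odd' i with ⟨k, rfl | rfl⟩
        · rw [pow_mul, pow_two, hg2, one_pow, pull_one, h0]
        · rw [pow_succ, pow_mul, pow_two, hg2, one_pow, one_mul, h3, Pi.neg_apply, h0, neg_zero]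
    refine le_antisymm hW fun f hf => ?_
    have hwv : w v.1.embedding ≠ 0 := fun h2 => hw0 (h1 w (hW hw) h2)
    have h4 : f = (f v.1.embedding / w v.1.embedding) • w := by
      rw [← sub_eq_zero]
      refine h1 _ (sub_mem hf (Submodule.smul_mem _ _ (hW hw))) ?_
      rw [Pi.sub_apply, Pi.smul_apply, smul_eq_mul, div_mul_cancel₀ _ hwv, sub_self]
    rw [h4]
    exact Submodule.smul_mem _ _ hw
  have hhigh : orderOf g = 3 ∨ orderOf g = 4 ∨ orderOf g = 6 → W = New n F := by
    intro hm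
    obtain ⟨b, hb⟩ := quad (n := n) g hm
    have hm3 : 3 ≤ orderOf g := by
      rcases hm with hm | hm | hm <;> omega
    have h1 : ∀ f ∈ New n F, f v.1.embedding = 0 → pull (g : F →+* F) f v.1.embedding = 0 → f = 0 := by
      intro f hf h0 h0'
      have h2 : ∀ i : ℕ, ∃ a c : ℝ, pull ((g ^ i : F ≃ₐ[ℚ] F) : F →+* F) f =
          a • f + c • pull (g : F →+* F) f := by
        intro i
        induction i with
        | zero =>
          refine ⟨1, 0, ?_⟩
          rw [pow_zero, pull_one]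
          module
        | succ i ih =>
          obtain ⟨a, c, hac⟩ := ih
          refine ⟨-c, a + c * b, ?_⟩
          rw [pow_succ', ← pull_pull, hac, map_add, map_smul, map_smul, hb f hf]
          module
      refine eq_zero_of_trans hg v hf.1 fun i => ?_
      obtain ⟨a, c, hac⟩ := h2 i
      rw [hac, Pi.add_apply, Pi.smul_apply, Pi.smul_apply, h0, h0', smul_zero, smul_zero, add_zero]
    let e : New n F →ₗ[ℝ] (Fin 2 → ℝ) :=
      { toFun := fun f => ![f.1 v.1.embedding, pull (g : F →+* F) f.1 v.1.embedding]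
        map_add' := by
          intro f f'
          funext i
          fin_cases i <;> rfl
        map_smul' := by
          intro c f
          funext i
          fin_cases i <;> rfl }
    have he : Function.Injective e := by
      rw [injective_iff_map_eq_zero]
      intro f hf
      exact Subtype.ext (h1 f.1 f.2 (congrFun hf 0) (congrFun hf 1))
    have h3 : Module.finrank ℝ (New n F) ≤ 2 := by
      have := LinearMap.finrank_le_finrank_of_injective he
      rwa [Module.finrank_fin_fun] at this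
    have h4 : LinearIndependent ℝ ![w, pull (g : F →+* F) w] := by
      rw [LinearIndependent.pair_iff' hw0]
      intro c hc
      have h5 : ∀ i : ℕ, pull ((g ^ i : F ≃ₐ[ℚ] F) : F →+* F) w = c ^ i • w := by
        intro i
        induction i with
        | zero => rw [pow_zero, pull_one, pow_zero, one_smul]
        | succ i ih =>
          rw [pow_succ', ← pull_pull, ih, map_smul, ← hc, smul_smul, pow_succ]
      have h6 := h5 (orderOf g)
      rw [pow_orderOf_eq_one, pull_one] at h6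
      have h7 : c ^ orderOf g = 1 := by
        have h8 : (c ^ orderOf g - 1) • w = 0 := by
          rw [sub_smul, one_smul, ← h6, sub_self]
        rcases smul_eq_zero.mp h8 with h9 | h9
        · linarith
        · exact absurd h9 hw0
      have h10 : c ^ 2 = 1 := by
        have h11 : |c| ^ orderOf g = 1 := by rw [← abs_pow, h7, abs_one]
        have h12 : |c| = 1 := (pow_eq_one_iff_of_nonneg (abs_nonneg c) (by omega)).mp h11
        rw [← sq_abs, h12, one_pow]
      apply hw0
      refine new_fix (hW hw) (g ^ 2) ?_ ?_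
      · intro h13
        have h14 := Nat.le_of_dvd (by norm_num) (orderOf_dvd_of_pow_eq_one h13)
        omega
      · rw [h5 2, h10, one_smul]
    refine Submodule.eq_of_le_of_finrank_le hW (h3.trans ?_)
    have h5 : LinearIndependent ℝ (![⟨w, hw⟩, ⟨pull (g : F →+* F) w, hWg w hw⟩] : Fin 2 → W) := by
      refine LinearIndependent.of_comp W.subtype ?_
      convert h4 using 1
      funext i
      fin_cases i <;> rfl
    have h6 := h5.fintype_card_le_finrank
    rwa [Fintype.card_fin] at h6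
  rcases hs with hs | hs | hs | hs | hs
  · exact hlow (Or.inl hs)
  · exact hlow (Or.inr hs)
  · exact hhigh (Or.inl hs)
  · exact hhigh (Or.inr (Or.inl hs))
  · exact hhigh (Or.inr (Or.inr hs))

/-- The new functions are orthogonal to the old functions. -/
theorem pair_old {n : ℕ} {F : Type} [Field F] [NumberField F] {f h : (F →+* ℂ) → ℝ} (hf : f ∈ New n F)
    (hh : h ∈ oldSpan n F) : ∑ σ, f σ * h σ = 0 := by
  classical
  induction hh using Submodule.span_induction with
  | mem h hh =>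
    obtain ⟨E, _, _, φ, hφ, g, hg, rfl⟩ := hh
    have h1 : ∀ σ ∈ (Finset.univ : Finset (F →+* ℂ)), (fun σ : F →+* ℂ => σ.comp φ) σ ∈
        (Finset.univ : Finset (E →+* ℂ)) := fun σ _ => Finset.mem_univ _
    rw [← Finset.sum_fiberwise_of_maps_to h1]
    refine Finset.sum_eq_zero fun τ _ => ?_
    have h2 : ∀ σ ∈ Finset.univ.filter (fun σ : F →+* ℂ => σ.comp φ = τ),
        f σ * pull φ g σ = f σ * g τ := by
      intro σ hσ
      rw [pull_apply, (Finset.mem_filter.mp hσ).2]
    rw [Finset.sum_congr rfl h2, ← Finset.sum_mul, hf.2 E φ hφ τ, zero_mul]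
  | zero => simp
  | add a b _ _ ha hb =>
    simp only [Pi.add_apply, mul_add, Finset.sum_add_distrib]
    rw [ha, hb, add_zero]
  | smul c a _ ha =>
    have h3 : ∀ σ, f σ * (c • a) σ = c * (f σ * a σ) := by
      intro σ
      rw [Pi.smul_apply, smul_eq_mul]
      ring
    simp only [h3]
    rw [← Finset.mul_sum, ha, mul_zero]

theorem enough_of_small {n : ℕ} {F : Type} [Field F] [NumberField F] (h : SmallTrans n F)
    (h' : OneElement n F) : Enough n F := by
  intro W hW hW0 hWg
  obtain ⟨g, hg, hg'⟩ := h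
  obtain ⟨f, hf, hyf⟩ := h'
  have h1 := irred g hg hg' W hW (hWg g) hW0
  exact ⟨f, h1 ▸ hf, hyf⟩

theorem enough_of_nonvan {n : ℕ} {F : Type} [Field F] [NumberField F] (h : NonVanishing n F) :
    Enough n F := by
  intro W hW hW0 _
  obtain ⟨f, hf, hf0⟩ := Submodule.exists_mem_ne_zero_of_ne_bot hW0
  refine ⟨f, hf, ?_⟩
  by_contra hne
  unfold Detects at hne
  push Not at hne
  apply hf0
  have h1 : f ∈ regSpan n F := (nonvan_iff n F).mp h (hW hf).1
  have h2 : ∀ k ∈ regSpan n F, ∑ σ, f σ * k σ = 0 := by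
    intro k hk
    induction hk using Submodule.span_induction with
    | mem k hk =>
      obtain ⟨y, hy, rfl⟩ := hk
      exact hne y hy
    | zero => simp
    | add a b _ _ ha hb =>
      simp only [Pi.add_apply, mul_add, Finset.sum_add_distrib]
      rw [ha, hb, add_zero]
    | smul c a _ ha =>
      have h3 : ∀ σ, f σ * (c • a) σ = c * (f σ * a σ) := by
        intro σ
        rw [Pi.smul_apply, smul_eq_mul]
        ring
      simp only [h3]
      rw [← Finset.mul_sum, ha, mul_zero]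
  have h3 := h2 f h1
  rw [Finset.sum_eq_zero_iff_of_nonneg (fun σ _ => mul_self_nonneg _)] at h3
  funext σ
  exact mul_self_eq_zero.mp (h3 σ (Finset.mem_univ σ))

theorem nonvan_of_enough {n : ℕ} {F : Type} [Field F] [NumberField F]
    (hold : oldSpan n F ≤ regSpan n F) (h : Enough n F) : NonVanishing n F := by
  let W : Submodule ℝ ((F →+* ℂ) → ℝ) :=
    { carrier := {f | f ∈ New n F ∧ ∀ y ∈ kerDelta n F, ∑ σ : F →+* ℂ, f σ * reg n y σ = 0}
      add_mem' := by
        rintro a b ⟨ha, ha'⟩ ⟨hb, hb'⟩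
        refine ⟨add_mem ha hb, fun y hy => ?_⟩
        simp only [Pi.add_apply, add_mul, Finset.sum_add_distrib]
        rw [ha' y hy, hb' y hy, add_zero]
      zero_mem' := ⟨zero_mem _, fun y _ => by simp⟩
      smul_mem' := by
        rintro c a ⟨ha, ha'⟩
        refine ⟨Submodule.smul_mem _ c ha, fun y hy => ?_⟩
        simp only [Pi.smul_apply, smul_eq_mul, mul_assoc]
        rw [← Finset.mul_sum, ha' y hy, mul_zero] }
  have hW0 : W = ⊥ := by
    by_contra hW
    obtain ⟨f, hf, y, hy, hfy⟩ := h W (fun f hf => hf.1) hW (by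
      rintro g f ⟨hf, hf'⟩
      refine ⟨new_comp hf g, fun y hy => ?_⟩
      have h1 := hf' (mp ((g.symm : F ≃ₐ[ℚ] F) : F →+* F) y) (kerDelta_map _ n hy)
      rw [← h1]
      refine Fintype.sum_equiv (perm g) _ _ fun σ => ?_
      rw [reg_map]
      have h2 : (perm g σ).comp ((g.symm : F ≃ₐ[ℚ] F) : F →+* F) = σ := (perm g).left_inv σ
      rw [h2]
      rfl)
    exact hfy (hf.2 y hy)
  rw [nonvan_iff]
  intro f hf
  by_contra hf0
  obtain ⟨ℓ, hℓ, hℓ'⟩ := Submodule.exists_le_ker_of_notMem hf0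
  obtain ⟨h1, h2, h6⟩ := repr_new n F ℓ (hold.trans hℓ')
  have h3 : h1 ∈ W := by
    refine ⟨h2, fun y hy => ?_⟩
    have h4 := h6 (reg n y) (reg_mem n y)
    have h5 : ℓ (reg n y) = 0 := hℓ' (Submodule.subset_span ⟨y, hy, rfl⟩)
    rw [h5, mul_zero] at h4
    rw [← h4]
    exact Finset.sum_congr rfl fun σ _ => mul_comm _ _
  rw [hW0, Submodule.mem_bot] at h3
  have h4 := h6 f hf
  rw [h3] at h4
  simp only [Pi.zero_apply, mul_zero, Finset.sum_const_zero] at h4
  apply hℓ
  linarith

/-- The reduction -/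
theorem reduction (n : ℕ) : ∀ (d : ℕ) (F : Type) [Field F] [NumberField F],
    Module.finrank ℚ F = d →
    (∀ (E : Type) [Field E] [NumberField E], Nonempty (E →+* F) → New n E ≠ ⊥ → Enough n E) →
    NonVanishing n F := by
  intro d
  induction d using Nat.strong_induction_on with
  | _ d ih =>
    intro F _ _ hd h
    have hold : oldSpan n F ≤ regSpan n F := by
      refine Submodule.span_le.mpr ?_
      rintro f ⟨E, _, _, φ, hφ, g, hg, rfl⟩
      refine pull_regSpan φ ?_
      refine (nonvan_iff n E).mp ?_ hg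
      refine ih (Module.finrank ℚ E) (hd ▸ finrank_lt φ hφ) E rfl ?_
      intro E' _ _ ⟨ψ⟩ hE'
      exact h E' ⟨φ.comp ψ⟩ hE'
    refine nonvan_of_enough hold ?_
    by_cases h0 : New n F = ⊥
    · intro W hW hW0
      exact absurd (le_bot_iff.mp (h0 ▸ hW)) hW0
    · exact h F ⟨RingHom.id F⟩ h0

end

end Pool.Agent.E8helper74.ZG
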