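import Pool.Agent.E8helper74.ZG.Cyclic

/-!
# The statements
-/

set_option autoImplicit false

open NumberField

namespace Pool.Agent.E8helper74.ZG

theorem reduction_holds {n : ℕ} (hn : 2 ≤ n) (F : Type) [Field F] [NumberField F] : Reduction n F := by
  intro h
  refine reduction n _ F rfl ?_
  intro E _ _ hE hE'
  by_cases h1 : Module.finrank ℚ E = 1
  · obtain ⟨h2, h3⟩ := oneElement_deg_one hn h1 hE'
    exact enough_of_small h2 h3
  · have h2 : 0 < Module.finrank ℚ E := Module.finrank_pos
    exact h E hE (by omega) hE'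

theorem cyclicReduction_holds {n : ℕ} (hn : 2 ≤ n) (F : Type) [Field F] [NumberField F]
    [IsAbelianGalois ℚ F] : CyclicReduction n F := by
  intro h
  refine reduction_holds hn F ?_
  intro E _ _ hE h1 hE'
  obtain ⟨φ⟩ := hE
  have hA : IsAbelianGalois ℚ E := IsAbelianGalois.of_algHom φ.toRatAlgHom
  have hc : IsCyclic (E ≃ₐ[ℚ] E) :=
    (hasFPF_of_new hE').cyclic_of_comm fun a b => mul_comm' a b
  exact enough_of_char (h E ⟨φ⟩ inferInstance hc h1 hE')

theorem zagier_imp {n : ℕ} (hn : 2 ≤ n) {F : Type} [Field F] [NumberField F] (h : Zagier n F) :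
    NonVanishing n F := by
  obtain ⟨y, q, hq, h1⟩ := h
  refine ⟨y, fun h2 => zeta_ne_zero F n hn ?_⟩
  rw [h1, h2]
  simp

theorem restricted_of_fpf {G : Type} [Group G] [Finite G] (hG : HasFPF G) : Restricted G := by
  refine ⟨hG, ?_, ?_, ?_⟩
  · intro H hH
    exact (hG.subgroup H).cyclic_of_comm hH
  · intro H p q hp hq hH
    exact (hG.subgroup H).cyclic_of_card hp hq hH
  · intro a b ha hb
    refine hG.eq_of_invol a b ?_ ?_ ?_ ?_
    · rintro rfl
      rw [orderOf_one] at ha
      norm_num at ha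
    · rintro rfl
      rw [orderOf_one] at hb
      norm_num at hb
    · rw [← pow_two, ← ha, pow_orderOf_eq_one]
    · rw [← pow_two, ← hb, pow_orderOf_eq_one]

end Pool.Agent.E8helper74.ZG
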