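import Pool.Agent.E8helper74.ZG.New

/-!
# The value of the Dedekind zeta function is not zero
-/

set_option autoImplicit false

open NumberField Filter Asymptotics

open scoped Topology

namespace Pool.Agent.E8helper74.ZG

/-- the number of ideals of norm `k` -/
noncomputable def cf (F : Type) [Field F] [NumberField F] (k : ℕ) : ℝ :=
  (Nat.card {I : Ideal (𝓞 F) // Ideal.absNorm I = k} : ℝ)

theorem cf_bigO (F : Type) [Field F] [NumberField F] :
    (fun n : ℕ ↦ ∑ k ∈ Finset.Icc 1 n, cf F k) =O[atTop] fun n ↦ (n : ℝ) ^ (1 : ℝ) := by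
  have h1 : Tendsto (fun n : ℕ => (∑ k ∈ Finset.Icc 1 n, cf F k) / (n : ℝ)) atTop
      (𝓝 (dedekindZeta_residue F)) := by
    refine ((Ideal.tendsto_norm_le_div_atTop₀ F).comp tendsto_natCast_atTop_atTop).congr fun n ↦ ?_
    simp only [Function.comp_apply, Nat.cast_le, cf, ← Nat.cast_sum]
    congr
    rw [← add_left_inj 1, ← Ideal.card_norm_le_eq_card_norm_le_add_one,
      show Finset.Icc 1 n = Finset.Ioc 0 n from Finset.Icc_succ_left_eq_Ioc _ _,
      show 1 = Nat.card {I : Ideal (𝓞 F) // Ideal.absNorm I = 0} by simp [Ideal.absNorm_eq_zero_iff],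
      Finset.sum_Ioc_add_eq_sum_Icc (n.zero_le),
      ← Finset.card_preimage_eq_sum_card_image_eq (fun k _ ↦ Ideal.finite_setOfPred_absNorm_eq k)]
    simp [Set.coe_eq_subtype]
  refine isBigO_of_div_tendsto_nhds ?_ _ (h1.congr fun n => ?_)
  · filter_upwards [eventually_ne_atTop 0] with n hn h0
    rw [Real.rpow_one, Nat.cast_eq_zero] at h0
    exact absurd h0 hn
  · rw [Pi.div_apply, Real.rpow_one]

open scoped ComplexOrder in
theorem zeta_ne_zero (F : Type) [Field F] [NumberField F] (n : ℕ) (hn : 2 ≤ n) :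
    dedekindZeta F n ≠ 0 := by
  have h1 : ∀ y : ℝ, 1 < y → LSeriesSummable (fun k => (cf F k : ℂ)) y := by
    intro y hy
    exact LSeriesSummable_of_sum_norm_bigO_and_nonneg (cf_bigO F) (fun k => Nat.cast_nonneg _)
      zero_le_one (by rwa [Complex.ofReal_re])
  have h2 : LSeries.abscissaOfAbsConv (fun k => (cf F k : ℂ)) ≤ (1 : ℝ) :=
    LSeries.abscissaOfAbsConv_le_of_forall_lt_LSeriesSummable h1
  have h3 : LSeries.abscissaOfAbsConv (fun k => (cf F k : ℂ)) < ((n : ℝ) : EReal) := by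
    refine lt_of_le_of_lt h2 ?_
    rw [EReal.coe_lt_coe_iff]
    exact_mod_cast hn
  have h4 : (0 : ℂ) < LSeries (fun k => (cf F k : ℂ)) ((n : ℝ) : ℂ) := by
    refine LSeries.positive ?_ ?_ h3
    · intro k
      rw [Pi.zero_apply]
      exact Complex.zero_le_real.mpr (Nat.cast_nonneg _)
    · have h5 : 0 < cf F 1 := by
        unfold cf
        rw [Nat.cast_pos, Nat.card_pos_iff]
        refine ⟨⟨⟨⊤, ?_⟩⟩, ?_⟩
        · exact Ideal.absNorm_top
        · exact Set.Finite.to_subtype (Ideal.finite_setOfPred_absNorm_eq 1)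
      exact Complex.zero_lt_real.mpr h5
  have h6 : dedekindZeta F n = LSeries (fun k => (cf F k : ℂ)) ((n : ℝ) : ℂ) := by
    unfold dedekindZeta cf
    congr 1
  rw [h6]
  exact h4.ne'

/-- Zagier's conjecture means that some regulator determinant is not zero, by the theorem of Borel, Beilinson,
Deligne and de Jeu. -/
theorem zagier_iff {F : Type} [Field F] [NumberField F] {n : ℕ} (hn : 2 ≤ n) (h : Rationality n F) :
    Zagier n F ↔ NonVanishing n F := by
  have hz := zeta_ne_zero F n hn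
  constructor
  · rintro ⟨y, q, hq, h1⟩
    refine ⟨y, fun h2 => hz ?_⟩
    rw [h1, h2]
    simp
  · rintro ⟨y, hy⟩
    obtain ⟨q, hq⟩ := h y
    have hq0 : q ≠ 0 := by
      rintro rfl
      rw [Rat.cast_zero, zero_mul, Complex.ofReal_eq_zero] at hq
      have h3 : Real.pi ^ (n * dNum (n - 1) F) ≠ 0 := pow_ne_zero _ Real.pi_ne_zero
      have h4 : (Real.sqrt |(discr F : ℝ)|)⁻¹ ≠ 0 := by
        refine inv_ne_zero (Real.sqrt_ne_zero'.mpr (abs_pos.mpr ?_))
        exact_mod_cast discr_ne_zero F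
      exact mul_ne_zero (mul_ne_zero h3 h4) hy hq
    refine ⟨y, q⁻¹, inv_ne_zero hq0, ?_⟩
    have h5 : (q : ℂ) ≠ 0 := by exact_mod_cast hq0
    rw [Complex.ofReal_mul, hq]
    push_cast
    rw [← mul_assoc, inv_mul_cancel₀ h5, one_mul]

end Pool.Agent.E8helper74.ZG
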